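import Pool.Agent.Helper40.ZO.AlgA

/-!
# Project CS: compatible systems (helper40), definitions

`G` is a group, `τ : G → GL_n(K)`.  The coordinates of a matrix are its entries and the inverse of its
determinant.
-/

set_option autoImplicit false

namespace Pool.Agent.Helper40.CS

open Pool.Agent.Helper40.ZO

/-- The coordinates: the entries and the inverse of the determinant. -/
noncomputable def pt {K : Type*} [Field K] {n : ℕ} (M : Mat n K) : Option (Fin n × Fin n) → K
  | none => M.det⁻¹
  | some k => M k.1 k.2

/-- The value of a polynomial in the coordinates. -/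
noncomputable def ev {K : Type*} [Field K] {n : ℕ} (M : Mat n K)
    (f : MvPolynomial (Option (Fin n × Fin n)) K) : K :=
  MvPolynomial.eval (pt M) f

/-- Every polynomial (in the entries) vanishing on an open subgroup of `N` vanishes on `N`. -/
def Conn {K P : Type*} [Field K] [Group P] [TopologicalSpace P] {n : ℕ} (τ : P →* Mat n K)
    (N : Subgroup P) : Prop :=
  ∀ N' : Subgroup P, IsOpen (N' : Set P) → N' ≤ N →
    ∀ f : MvPolynomial (Fin n × Fin n) K, (∀ γ ∈ N', val (τ γ) f = 0) → ∀ γ ∈ N, val (τ γ) f = 0

end Pool.Agent.Helper40.CS
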