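import Mathlib

/-!
# Block CS-EIG: eigenvalues of an algebra endomorphism on products of subspaces

`T` is an endomorphism of the commutative `K`-algebra `R`, `C` and `D` are finite dimensional subspaces
stable under `T`.  Write `G α = Module.End.maxGenEigenspace T.toLinearMap α`.
(a) `C ≤ ⨆ α ∈ Λ C, G α` where `Λ C` is the set of eigenvalues of `T` with an eigenvector in `C`: `T` restricted
to `C` is an endomorphism of a finite dimensional space over an algebraically closed field,
`Module.End.iSup_maxGenEigenspace_eq_top`.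
(b) If `(T - α) ^ k c = 0` and `(T - β) ^ l d = 0` then `(T - α β) ^ (k + l) (c d) = 0`: induction on `k + l` with
`(T - α β) (c d) = ((T - α) c) (T d) + α c ((T - β) d)`. So `G α * G β ≤ G (α β)`.
(c) So `C * D ≤ ⨆ α ∈ Λ C, ⨆ β ∈ Λ D, G (α β)`. An eigenvector `v ≠ 0` of eigenvalue `μ` in `C * D`, with `μ` not
of the form `α β`, would be in the intersection of `G μ` and of the sum of the other `G`'s, contradiction
to `Module.End.independent_maxGenEigenspace`.
`eig_pow`: induction on `d`, `C ^ (d + 1) = C ^ d * C` (`pow_succ`); `C ^ 0 = 1` consists of the scalars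
(`Submodule.mem_one`), on which `T` is the identity. `C ^ d` is finite dimensional
(`Submodule.FG.pow` or `Submodule.FG.mul`) and stable.
-/

set_option autoImplicit false

namespace Pool.Agent.Helper40.CS

variable {K R : Type*} [Field K] [IsAlgClosed K] [CommRing R] [Algebra K R]

private lemma mul_gen61 (T : R →ₐ[K] R) (α β : K) : ∀ n k l : ℕ, k + l = n → ∀ x y : R,
    ((T.toLinearMap - algebraMap K (Module.End K R) α) ^ k) x = 0 →
    ((T.toLinearMap - algebraMap K (Module.End K R) β) ^ l) y = 0 →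
    ((T.toLinearMap - algebraMap K (Module.End K R) (α * β)) ^ n) (x * y) = 0 := by
  intro n
  induction n with
  | zero =>
    intro k l h x y hx hy
    have h1 : k = 0 := by omega
    rw [h1] at hx
    have h2 : x = 0 := hx
    rw [h2, zero_mul, map_zero]
  | succ n ih =>
    intro k l h x y hx hy
    rcases k with _ | k
    · have h2 : x = 0 := hx
      rw [h2, zero_mul, map_zero]
    rcases l with _ | l
    · have h2 : y = 0 := hy
      rw [h2, mul_zero, map_zero]
    have e : (T.toLinearMap - algebraMap K (Module.End K R) (α * β)) (x * y) =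
        ((T.toLinearMap - algebraMap K (Module.End K R) α) x) * T y +
          (α • x) * ((T.toLinearMap - algebraMap K (Module.End K R) β) y) := by
      show T (x * y) - (α * β) • (x * y) =
        (T x - α • x) * T y + (α • x) * (T y - β • y)
      rw [map_mul, sub_mul, mul_sub, smul_mul_assoc, smul_mul_assoc, mul_smul_comm, smul_smul,
        sub_add_sub_cancel]
    rw [pow_succ, Module.End.mul_apply, e, map_add]
    have h1 : ((T.toLinearMap - algebraMap K (Module.End K R) α) ^ k)
        ((T.toLinearMap - algebraMap K (Module.End K R) α) x) = 0 := by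
      rw [← Module.End.mul_apply, ← pow_succ]
      exact hx
    have h2 : ((T.toLinearMap - algebraMap K (Module.End K R) β) ^ l)
        ((T.toLinearMap - algebraMap K (Module.End K R) β) y) = 0 := by
      rw [← Module.End.mul_apply, ← pow_succ]
      exact hy
    have h3 : ((T.toLinearMap - algebraMap K (Module.End K R) β) ^ (l + 1)) (T y) = 0 := by
      have hc : Commute ((T.toLinearMap - algebraMap K (Module.End K R) β) ^ (l + 1))
          T.toLinearMap :=
        ((Commute.refl T.toLinearMap).sub_left (Algebra.commutes β _)).pow_left _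
      have h4 : ((T.toLinearMap - algebraMap K (Module.End K R) β) ^ (l + 1)) (T.toLinearMap y) =
          T.toLinearMap (((T.toLinearMap - algebraMap K (Module.End K R) β) ^ (l + 1)) y) := by
        rw [← Module.End.mul_apply, hc.eq, Module.End.mul_apply]
      rw [AlgHom.toLinearMap_apply] at h4
      rw [h4, hy, map_zero]
    have h5 : ((T.toLinearMap - algebraMap K (Module.End K R) α) ^ (k + 1)) (α • x) = 0 := by
      rw [map_smul, hx, smul_zero]
    rw [ih k (l + 1) (by omega) _ _ h1 h3, ih (k + 1) l (by omega) _ _ h5 h2, add_zero]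

omit [IsAlgClosed K] in
private lemma mem_gen61 {f : Module.End K R} {α : K} {x : R} :
    x ∈ f.maxGenEigenspace α ↔ ∃ k : ℕ, ((f - algebraMap K (Module.End K R) α) ^ k) x = 0 := by
  rw [Module.End.mem_maxGenEigenspace]
  rfl

private lemma gen_mul61 (T : R →ₐ[K] R) (α β : K) :
    Module.End.maxGenEigenspace T.toLinearMap α *
      Module.End.maxGenEigenspace T.toLinearMap β ≤
      Module.End.maxGenEigenspace T.toLinearMap (α * β) := by
  rw [Submodule.mul_le]
  intro x hx y hy
  rw [mem_gen61] at hx hy ⊢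
  obtain ⟨k, hk⟩ := hx
  obtain ⟨l, hl⟩ := hy
  exact ⟨k + l, mul_gen61 T α β (k + l) k l rfl x y hk hl⟩

/-- A stable subspace of finite dimension is contained in the sum of the generalised eigenspaces
of its eigenvalues. -/
private lemma le_gen61 (T : R →ₐ[K] R) {C : Submodule K R} (hCf : C.FG)
    (hC : ∀ c ∈ C, T c ∈ C) :
    C ≤ ⨆ α : {α : K // ∃ c ∈ C, c ≠ 0 ∧ T c = α • c}, Module.End.maxGenEigenspace T.toLinearMap α.1 := by
  have hfin : Module.Finite K C := Module.Finite.iff_fg.mpr hCf
  have hC' : ∀ c ∈ C, T.toLinearMap c ∈ C := hC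
  set g : Module.End K C := T.toLinearMap.restrict hC' with hg
  have hgc : ∀ c : C, ((g c : C) : R) = T c := fun c => rfl
  have htop := Module.End.iSup_maxGenEigenspace_eq_top g
  have hpow : ∀ (α : K) (n : ℕ) (c : C),
      (((g - algebraMap K (Module.End K C) α) ^ n) c : R) =
        ((T.toLinearMap - algebraMap K (Module.End K R) α) ^ n) (c : R) := by
    intro α n
    induction n with
    | zero => intro c; rfl
    | succ n ih =>
      intro c
      rw [pow_succ, pow_succ, Module.End.mul_apply, Module.End.mul_apply, ih]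
      rfl
  intro x hx
  have h1 : (⟨x, hx⟩ : C) ∈ ⨆ α, g.maxGenEigenspace α := by
    rw [htop]
    exact Submodule.mem_top
  have h2 : (⨆ α, g.maxGenEigenspace α) ≤ Submodule.comap C.subtype
      (⨆ α : {α : K // ∃ c ∈ C, c ≠ 0 ∧ T c = α • c}, Module.End.maxGenEigenspace T.toLinearMap α.1) := by
    refine iSup_le fun α => ?_
    intro c hc
    rw [Submodule.mem_comap]
    by_cases hc0 : c = 0
    · rw [hc0, map_zero]
      exact Submodule.zero_mem _
    have hc' := hc
    rw [Module.End.mem_maxGenEigenspace] at hc'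
    obtain ⟨n, hn⟩ := hc'
    have hev : g.HasEigenvalue α := by
      apply Module.End.hasEigenvalue_of_hasGenEigenvalue (k := n)
      rw [Module.End.hasGenEigenvalue_iff, Submodule.ne_bot_iff]
      exact ⟨c, by rw [Module.End.mem_genEigenspace_nat]; exact hn, hc0⟩
    obtain ⟨e, he⟩ := hev.exists_hasEigenvector
    have hmem : ∃ c ∈ C, c ≠ 0 ∧ T c = α • c := by
      refine ⟨e, e.2, fun h => he.2 (Subtype.ext h), ?_⟩
      have h3 := he.apply_eq_smul
      rw [← hgc, h3]
      rfl
    refine (le_iSup (fun α : {α : K // ∃ c ∈ C, c ≠ 0 ∧ T c = α • c} =>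
      Module.End.maxGenEigenspace T.toLinearMap α.1) ⟨α, hmem⟩) ?_
    rw [mem_gen61]
    refine ⟨n, ?_⟩
    have h4 := hpow α n c
    show ((T.toLinearMap - algebraMap K (Module.End K R) α) ^ n) (c : R) = 0
    rw [← h4]
    have h5 : ((g - algebraMap K (Module.End K C) α) ^ n) c = 0 := hn
    rw [h5]
    rfl
  exact h2 h1

theorem eig_mul (T : R →ₐ[K] R) {C D : Submodule K R} (hCf : C.FG) (hDf : D.FG)
    (hC : ∀ c ∈ C, T c ∈ C) (hD : ∀ d ∈ D, T d ∈ D) {μ : K} {v : R} (hv : v ∈ C * D)
    (hv0 : v ≠ 0) (hTv : T v = μ • v) :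
    ∃ α β : K, μ = α * β ∧ (∃ c ∈ C, c ≠ 0 ∧ T c = α • c) ∧ ∃ d ∈ D, d ≠ 0 ∧ T d = β • d := by
  by_contra hcon
  push Not at hcon
  have h1 := mul_le_mul' (le_gen61 T hCf hC) (le_gen61 T hDf hD) hv
  rw [Submodule.iSup_mul] at h1
  have h2 : (⨆ α : {α : K // ∃ c ∈ C, c ≠ 0 ∧ T c = α • c},
      Module.End.maxGenEigenspace T.toLinearMap α.1 *
        ⨆ β : {β : K // ∃ d ∈ D, d ≠ 0 ∧ T d = β • d}, Module.End.maxGenEigenspace T.toLinearMap β.1) ≤
      ⨆ ν, ⨆ (_ : ν ≠ μ), Module.End.maxGenEigenspace T.toLinearMap ν := by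
    refine iSup_le fun α => ?_
    rw [Submodule.mul_iSup]
    refine iSup_le fun β => (gen_mul61 T α.1 β.1).trans ?_
    refine le_iSup₂_of_le (α.1 * β.1) ?_ le_rfl
    intro h
    obtain ⟨d, hd, hd0, hTd⟩ := β.2
    exact hcon α.1 β.1 h.symm α.2 d hd hd0 hTd
  have h3 := (Module.End.independent_maxGenEigenspace T.toLinearMap) μ
  rw [Submodule.disjoint_def] at h3
  apply hv0
  refine h3 v ?_ (h2 h1)
  rw [mem_gen61]
  refine ⟨1, ?_⟩
  rw [pow_one, LinearMap.sub_apply, AlgHom.toLinearMap_apply, hTv, Module.algebraMap_end_apply,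
    sub_self]

theorem eig_pow (T : R →ₐ[K] R) {C : Submodule K R} (hCf : C.FG) (hC : ∀ c ∈ C, T c ∈ C) (d : ℕ)
    {μ : K} {v : R} (hv : v ∈ C ^ d) (hv0 : v ≠ 0) (hTv : T v = μ • v) :
    ∃ β : Fin d → K, μ = ∏ i, β i ∧ ∀ i, ∃ c ∈ C, c ≠ 0 ∧ T c = β i • c := by
  induction d generalizing μ v with
  | zero =>
    rw [pow_zero, Submodule.mem_one] at hv
    obtain ⟨r, rfl⟩ := hv
    refine ⟨fun i => i.elim0, ?_, fun i => i.elim0⟩
    rw [T.commutes] at hTv
    have h1 : (μ - 1) • (algebraMap K R r) = 0 := by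
      rw [sub_smul, one_smul, ← hTv, sub_self]
    rcases smul_eq_zero.mp h1 with h | h
    · rw [Finset.univ_eq_empty, Finset.prod_empty]
      exact sub_eq_zero.mp h
    · exact absurd h hv0
  | succ d ih =>
    rw [pow_succ] at hv
    have hst : ∀ c ∈ C ^ d, T c ∈ C ^ d := by
      intro c hc
      have h1 : Submodule.map T.toLinearMap (C ^ d) ≤ C ^ d := by
        rw [Submodule.map_pow]
        refine pow_le_pow_left' ?_ d
        rintro _ ⟨c, hc, rfl⟩
        exact hC c hc
      exact h1 ⟨c, hc, rfl⟩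
    obtain ⟨α, β, hμ, ⟨c, hc, hc0, hTc⟩, hβ⟩ := eig_mul T (hCf.pow d) hCf hst hC hv hv0 hTv
    obtain ⟨γ, hγ, hγ'⟩ := ih hc hc0 hTc
    refine ⟨Fin.snoc γ β, ?_, ?_⟩
    · rw [Fin.prod_univ_castSucc]
      simp only [Fin.snoc_castSucc, Fin.snoc_last]
      rw [hμ, hγ]
    · intro i
      induction i using Fin.lastCases with
      | last => simpa only [Fin.snoc_last] using hβ
      | cast i => simpa only [Fin.snoc_castSucc] using hγ' i

end Pool.Agent.Helper40.CS
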