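import Pool.Agent.Helper40.CS.Defs
import Pool.Agent.Helper40.CS.Eig

/-!
# Block CS-ROU: roots of unity as products of eigenvalues

`F` is a polynomial in the coordinates which is `1` on `B` and `0` outside `B`.  Let `R = (G → K)` (functions), `C`
the span of `1` and of the coordinate functions `x ↦ pt (τ x) s` (finitely many). There is `d` with
`φ = (x ↦ ev (τ x) F) ∈ C ^ d` (`1 ∈ C`, so `C ^ d ≤ C ^ (d + 1)`; induction on the polynomial
`MvPolynomial.induction_on`). For `g : G` let `T : R →ₐ[K] R`, `(T f) x = f (x * g)`; `C` is stable under `T`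
(`τ (x g) = τ x * τ g`, `det` is multiplicative). Let `g ^ k ∈ B`, `g ^ j ∉ B` for `0 < j < k`, `ζ ^ k = 1`, and
`v = ∑ j < k, ζ⁻¹ ^ j • T ^ j φ`, that is `v x = ∑ j < k, ζ⁻¹ ^ j * φ (x * g ^ j)`. Then `v ∈ C ^ d`, `v 1 = 1`,
`T v = ζ • v` (because `φ (x * g ^ k) = φ x`: `x g ^ k ∈ B` iff `x ∈ B`, and `φ` is the indicator function). So by
`eig_pow` `ζ` is the product of `d` numbers `β i`, each with `T c = β i • c` for some `c ∈ C`, `c ≠ 0`.
Such `β` is `1`, `(det (τ g))⁻¹` or a root of the characteristic polynomial of `τ g`: the polynomial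
`p = (X - 1) * χ * (X - C (det (τ g))⁻¹)` annihilates `T` on `C`, because it kills the generators: on the span of
the functions `x ↦ τ x i j` (`i` fixed) `aeval T χ` acts as `x ↦ (τ x * aeval (τ g) χ) i j = 0` (Cayley-Hamilton,
`Matrix.aeval_self_charpoly`). Then `0 = aeval T p c = p.eval β • c`.
-/

set_option autoImplicit false

namespace Pool.Agent.Helper40.CS

open Pool.Agent.Helper40.ZO

section aux23

variable {K : Type*} [Field K] {G : Type*} [Group G] {n : ℕ} (τ : G →* Mat n K)

/-- The function one and the coordinate functions. -/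
private noncomputable def gen23 : Option (Option (Fin n × Fin n)) → (G → K)
  | none => 1
  | some s => fun x => pt (τ x) s

/-- The span of the function one and of the coordinate functions. -/
private noncomputable def Cs23 : Submodule K (G → K) := Submodule.span K (Set.range (gen23 τ))

private lemma gen_mem_23 (o : Option (Option (Fin n × Fin n))) : gen23 τ o ∈ Cs23 τ :=
  Submodule.subset_span ⟨o, rfl⟩

private lemma fg_23 : (Cs23 τ).FG := Submodule.fg_span (Set.finite_range _)

private lemma one_mem_23 : (1 : G → K) ∈ Cs23 τ := gen_mem_23 τ none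

private lemma coord_mem_23 (s : Option (Fin n × Fin n)) (h : G) :
    (fun x => pt (τ (x * h)) s) ∈ Cs23 τ := by
  cases s with
  | none =>
    have e : (fun x => pt (τ (x * h)) none) = (τ h).det⁻¹ • gen23 τ (some none) := by
      funext x
      change (τ (x * h)).det⁻¹ = (τ h).det⁻¹ * (τ x).det⁻¹
      rw [map_mul, Matrix.det_mul, mul_inv, mul_comm]
    rw [e]
    exact Submodule.smul_mem _ _ (gen_mem_23 τ _)
  | some k =>
    have e : (fun x => pt (τ (x * h)) (some k)) =
        ∑ l, (τ h) l k.2 • gen23 τ (some (some (k.1, l))) := by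
      funext x
      change (τ (x * h)) k.1 k.2 = (∑ l, (τ h) l k.2 • gen23 τ (some (some (k.1, l)))) x
      rw [map_mul, Matrix.mul_apply, Finset.sum_apply]
      apply Finset.sum_congr rfl
      intro l _
      change (τ x) k.1 l * (τ h) l k.2 = (τ h) l k.2 * (τ x) k.1 l
      rw [mul_comm]
    rw [e]
    exact Submodule.sum_mem _ fun l _ => Submodule.smul_mem _ _ (gen_mem_23 τ _)

private lemma pow_mono_23 {d e : ℕ} (h : d ≤ e) {f : G → K} (hf : f ∈ Cs23 τ ^ d) :
    f ∈ Cs23 τ ^ e := by
  induction e, h using Nat.le_induction with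
  | base => exact hf
  | succ e _ ih =>
    rw [pow_succ, ← mul_one f]
    exact Submodule.mul_mem_mul ih (one_mem_23 τ)

private lemma ev_mem_23 (F : MvPolynomial (Option (Fin n × Fin n)) K) :
    ∃ d : ℕ, ∀ h : G, (fun x => ev (τ (x * h)) F) ∈ Cs23 τ ^ d := by
  induction F using MvPolynomial.induction_on with
  | C a =>
    refine ⟨1, fun h => ?_⟩
    have e : (fun x => ev (τ (x * h)) (MvPolynomial.C a)) = a • (1 : G → K) := by
      funext x
      simp [ev]
    rw [e, pow_one]
    exact Submodule.smul_mem _ _ (one_mem_23 τ)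
  | add p q hp hq =>
    obtain ⟨d, hd⟩ := hp
    obtain ⟨e, he⟩ := hq
    refine ⟨max d e, fun h => ?_⟩
    have e1 : (fun x => ev (τ (x * h)) (p + q)) =
        (fun x => ev (τ (x * h)) p) + (fun x => ev (τ (x * h)) q) := by
      funext x
      simp [ev]
    rw [e1]
    exact Submodule.add_mem _ (pow_mono_23 τ (le_max_left _ _) (hd h))
      (pow_mono_23 τ (le_max_right _ _) (he h))
  | mul_X p s hp =>
    obtain ⟨d, hd⟩ := hp
    refine ⟨d + 1, fun h => ?_⟩
    have e1 : (fun x => ev (τ (x * h)) (p * MvPolynomial.X s)) =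
        (fun x => ev (τ (x * h)) p) * (fun x => pt (τ (x * h)) s) := by
      funext x
      simp [ev]
    rw [e1, pow_succ]
    exact Submodule.mul_mem_mul (hd h) (coord_mem_23 τ s h)

/-- Translation. -/
private def T23 (K : Type*) [Field K] (g : G) : (G → K) →ₐ[K] (G → K) where
  toFun f x := f (x * g)
  map_one' := rfl
  map_mul' _ _ := rfl
  map_zero' := rfl
  map_add' _ _ := rfl
  commutes' _ := rfl

private lemma T_stable_23 (g : G) : ∀ c ∈ Cs23 τ, T23 K g c ∈ Cs23 τ := by
  intro c hc
  have h1 : Cs23 τ ≤ (Cs23 τ).comap (T23 K g).toLinearMap := by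
    unfold Cs23
    rw [Submodule.span_le]
    rintro _ ⟨o, rfl⟩
    cases o with
    | none => exact one_mem_23 τ
    | some s => exact coord_mem_23 τ s g
  exact h1 hc

/-- The functions `x ↦ (τ x * A) i j`. -/
private def L23 (i j : Fin n) (A : Mat n K) : G → K := fun x => (τ x * A) i j

private lemma aeval_L_23 (g : G) (i j : Fin n) (p : Polynomial K) (A : Mat n K) :
    (Polynomial.aeval (T23 K g).toLinearMap p) (L23 τ i j A) =
      L23 τ i j (Polynomial.aeval (τ g) p * A) := by
  induction p using Polynomial.induction_on generalizing A with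
  | C a =>
    rw [Polynomial.aeval_C, Polynomial.aeval_C]
    funext x
    change a * (τ x * A) i j = (τ x * (algebraMap K (Mat n K) a * A)) i j
    rw [← Algebra.smul_def, Matrix.mul_smul, Matrix.smul_apply, smul_eq_mul]
  | add p q hp hq =>
    rw [map_add, map_add, LinearMap.add_apply, hp, hq, add_mul]
    funext x
    change (τ x * _) i j + (τ x * _) i j = (τ x * _) i j
    rw [mul_add, Matrix.add_apply]
  | monomial m a ih =>
    have e1 : (T23 K g).toLinearMap (L23 τ i j A) = L23 τ i j (τ g * A) := by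
      funext x
      change (τ (x * g) * A) i j = (τ x * (τ g * A)) i j
      rw [map_mul, mul_assoc]
    have e2 : Polynomial.C a * Polynomial.X ^ (m + 1) =
        (Polynomial.C a * Polynomial.X ^ m) * Polynomial.X := by
      rw [pow_succ, mul_assoc]
    have e3 : Polynomial.aeval (τ g) (Polynomial.C a * Polynomial.X ^ m * Polynomial.X) =
        Polynomial.aeval (τ g) (Polynomial.C a * Polynomial.X ^ m) * τ g := by
      rw [map_mul (Polynomial.aeval (τ g)) (Polynomial.C a * Polynomial.X ^ m), Polynomial.aeval_X]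
    rw [e2, e3, map_mul (Polynomial.aeval (T23 K g).toLinearMap) (Polynomial.C a * _),
      Polynomial.aeval_X, Module.End.mul_apply, e1, ih, mul_assoc]

private lemma eig_23 (g : G) {β : K} {c : G → K} (hc : c ∈ Cs23 τ) (hc0 : c ≠ 0)
    (h : T23 K g c = β • c) :
    β = 1 ∨ β = (τ g).det⁻¹ ∨ (τ g).charpoly.IsRoot β := by
  set p : Polynomial K := (Polynomial.X - Polynomial.C 1) *
    ((Polynomial.X - Polynomial.C (τ g).det⁻¹) * (τ g).charpoly) with hp
  have hker : Cs23 τ ≤ LinearMap.ker (Polynomial.aeval (T23 K g).toLinearMap p) := by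
    unfold Cs23
    rw [Submodule.span_le]
    rintro _ ⟨o, rfl⟩
    rw [SetLike.mem_coe, LinearMap.mem_ker]
    rcases o with _ | _ | k
    · rw [hp, mul_comm, map_mul, Module.End.mul_apply]
      have e1 : (Polynomial.aeval (T23 K g).toLinearMap (Polynomial.X - Polynomial.C (1 : K)))
          (gen23 τ none) = 0 := by
        rw [map_sub, Polynomial.aeval_X, Polynomial.aeval_C, LinearMap.sub_apply]
        funext x
        change (1 : K) - 1 * 1 = 0
        ring
      rw [e1, map_zero]
    · rw [hp, mul_left_comm, mul_comm, map_mul, Module.End.mul_apply]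
      have e1 : (Polynomial.aeval (T23 K g).toLinearMap
          (Polynomial.X - Polynomial.C (τ g).det⁻¹)) (gen23 τ (some none)) = 0 := by
        rw [map_sub, Polynomial.aeval_X, Polynomial.aeval_C, LinearMap.sub_apply]
        funext x
        change (τ (x * g)).det⁻¹ - (τ g).det⁻¹ * (τ x).det⁻¹ = 0
        rw [map_mul, Matrix.det_mul, mul_inv]
        ring
      rw [e1, map_zero]
    · have e0 : gen23 τ (some (some k)) = L23 τ k.1 k.2 1 := by
        funext x
        change (τ x) k.1 k.2 = (τ x * 1) k.1 k.2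
        rw [mul_one]
      rw [e0, hp, ← mul_assoc, map_mul, Module.End.mul_apply, aeval_L_23,
        Matrix.aeval_self_charpoly, zero_mul]
      have e1 : L23 τ k.1 k.2 0 = 0 := by
        funext x
        change (τ x * 0) k.1 k.2 = 0
        rw [mul_zero]
        rfl
      rw [e1, map_zero]
  have h1 : Module.End.HasEigenvector (T23 K g).toLinearMap β c :=
    ⟨Module.End.mem_eigenspace_iff.mpr h, hc0⟩
  have h2 := Module.End.aeval_apply_of_hasEigenvector (p := p) h1
  rw [LinearMap.mem_ker.mp (hker hc)] at h2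
  have h3 : p.eval β = 0 := (smul_eq_zero.mp h2.symm).resolve_right hc0
  rw [hp, Polynomial.eval_mul, Polynomial.eval_mul, mul_eq_zero, mul_eq_zero] at h3
  rcases h3 with h3 | h3 | h3
  · left
    simpa [sub_eq_zero] using h3
  · right; left
    simpa [sub_eq_zero] using h3
  · right; right
    exact h3

end aux23

theorem root_of_unity {K : Type*} [Field K] [IsAlgClosed K] {G : Type*} [Group G] {n : ℕ}
    (τ : G →* Mat n K) {B : Subgroup G} {F : MvPolynomial (Option (Fin n × Fin n)) K}
    (h1 : ∀ b ∈ B, ev (τ b) F = 1) (h0 : ∀ g : G, g ∉ B → ev (τ g) F = 0) :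
    ∃ d : ℕ, ∀ (g : G) (k : ℕ), 0 < k → g ^ k ∈ B → (∀ j : ℕ, 0 < j → j < k → g ^ j ∉ B) →
      ∀ ζ : K, ζ ^ k = 1 → ∃ β : Fin d → K, ζ = ∏ i, β i ∧
        ∀ i, β i = 1 ∨ β i = (τ g).det⁻¹ ∨ (τ g).charpoly.IsRoot (β i) := by
  obtain ⟨d, hd⟩ := ev_mem_23 τ F
  refine ⟨d, ?_⟩
  intro g k hk hgk hgj ζ hζ
  have hζ0 : ζ ≠ 0 := by
    rintro rfl
    rw [zero_pow hk.ne'] at hζ
    exact zero_ne_one hζ
  have hφ : ∀ x y : G, (x ∈ B ↔ y ∈ B) → ev (τ x) F = ev (τ y) F := by
    intro x y hxy
    by_cases hx : x ∈ B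
    · rw [h1 x hx, h1 y (hxy.mp hx)]
    · rw [h0 x hx, h0 y (fun hy => hx (hxy.mpr hy))]
  set v : G → K := fun x => ∑ j ∈ Finset.range k, ζ⁻¹ ^ j * ev (τ (x * g ^ j)) F with hv
  have hvC : v ∈ Cs23 τ ^ d := by
    have e : v = ∑ j ∈ Finset.range k, ζ⁻¹ ^ j • (fun x => ev (τ (x * g ^ j)) F) := by
      funext x
      rw [Finset.sum_apply]
      rfl
    rw [e]
    exact Submodule.sum_mem _ fun j _ => Submodule.smul_mem _ _ (hd _)
  have hv1 : v 1 = 1 := by
    rw [hv]
    change ∑ j ∈ Finset.range k, ζ⁻¹ ^ j * ev (τ (1 * g ^ j)) F = 1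
    rw [Finset.sum_eq_single 0]
    · rw [pow_zero, pow_zero, one_mul, one_mul]
      exact h1 1 B.one_mem
    · intro j hj hj0
      rw [Finset.mem_range] at hj
      rw [one_mul, h0 _ (hgj j (Nat.pos_of_ne_zero hj0) hj), mul_zero]
    · intro h
      exact absurd (Finset.mem_range.mpr hk) h
  have hv0 : v ≠ 0 := by
    intro h
    rw [h] at hv1
    exact zero_ne_one hv1
  have hTv : T23 K g v = ζ • v := by
    funext x
    change ∑ j ∈ Finset.range k, ζ⁻¹ ^ j * ev (τ (x * g * g ^ j)) F =
      ζ * ∑ j ∈ Finset.range k, ζ⁻¹ ^ j * ev (τ (x * g ^ j)) F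
    have e1 : ∑ j ∈ Finset.range k, ζ⁻¹ ^ (j + 1) * ev (τ (x * g ^ (j + 1))) F =
        ∑ j ∈ Finset.range k, ζ⁻¹ ^ j * ev (τ (x * g ^ j)) F := by
      have e2 := Finset.sum_range_succ' (fun j => ζ⁻¹ ^ j * ev (τ (x * g ^ j)) F) k
      rw [Finset.sum_range_succ] at e2
      have e3 : ζ⁻¹ ^ k * ev (τ (x * g ^ k)) F = ζ⁻¹ ^ 0 * ev (τ (x * g ^ 0)) F := by
        rw [inv_pow, hζ, inv_one, pow_zero, pow_zero, mul_one]
        congr 1
        apply hφ
        exact B.mul_mem_cancel_right hgk
      rw [e3] at e2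
      exact (add_right_cancel e2).symm
    rw [← e1, Finset.mul_sum]
    apply Finset.sum_congr rfl
    intro j _
    rw [mul_assoc x g, ← pow_succ', pow_succ ζ⁻¹ j]
    field_simp
  obtain ⟨β, hβ, hβc⟩ := eig_pow (T23 K g) (fg_23 τ) (T_stable_23 τ g) d hvC hv0 hTv
  refine ⟨β, hβ, fun i => ?_⟩
  obtain ⟨c, hc, hc0, hTc⟩ := hβc i
  exact eig_23 τ g hc hc0 hTc

end Pool.Agent.Helper40.CS
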