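import Pool.Agent.Helper40.CS.Defs
import Pool.Agent.Helper40.ZO.Dss

/-!
# Block CS-TEST: a polynomial detecting products of eigenvalues

For an invertible matrix `M` let `M'` be the block diagonal matrix with blocks `(det M)`, `(det M) M`, `(1)`
(index type `Option (Option (Fin n))`, say; its entries are polynomials in the entries of `M`); its
eigenvalues are `(det M) β`, where `β = 1`, `β` an eigenvalue of `M`, `β = (det M)⁻¹`. Let `S M` be the matrix with
index type `Fin d → Option (Option (Fin n))` and entries `S M a b = ∏ i, M' (a i) (b i)` (the `d`-th tensor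
power). If `M' w_i = ((det M) β_i) w_i`, `w_i ≠ 0` then `v a = ∏ i, w_i (a i)` is not zero and
`S M v = (det M) ^ d * (∏ i, β_i) • v` (`Finset.prod_univ_sum`). So if `ζ = ∏ i, β_i` then
`det (S M - ζ (det M) ^ d) = 0`. Take for `h` the polynomial `det (S X - ζ (det X) ^ d)`
(`Pool.Agent.Helper40.ZO.exists_val_det`, after a reindexing of the index type to `Fin r`; the hypothesis of
`exists_val_det` asks for polynomials for the entries: products of entries of `M'`). At `M = 1`: `S 1 = 1`, so the
value is `(1 - ζ) ^ r ≠ 0`.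
-/

set_option autoImplicit false

namespace Pool.Agent.Helper40.CS

open Pool.Agent.Helper40.ZO

/-- The block diagonal matrix with blocks `δ`, `1`, `δ M`. -/
private def bl {R : Type*} [CommRing R] {n : ℕ} (δ : R) (M : Matrix (Fin n) (Fin n) R) :
    Matrix (Option (Option (Fin n))) (Option (Option (Fin n))) R
  | none, none => δ
  | some none, some none => 1
  | some (some i), some (some j) => δ * M i j
  | _, _ => 0

/-- The tensor power of a matrix. -/
private def tn {R ι : Type*} [CommRing R] (d : ℕ) (A : Matrix ι ι R) : Matrix (Fin d → ι) (Fin d → ι) R :=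
  fun a b => ∏ i, A (a i) (b i)

private theorem map_bl {R R' : Type*} [CommRing R] [CommRing R'] {n : ℕ} (φ : R →+* R') (δ : R)
    (M : Matrix (Fin n) (Fin n) R) (a b : Option (Option (Fin n))) :
    φ (bl δ M a b) = bl (φ δ) (M.map φ) a b := by
  rcases a with _ | _ | i <;> rcases b with _ | _ | j <;> simp [bl]

private theorem bl_one {R : Type*} [CommRing R] {n : ℕ} : bl 1 (1 : Matrix (Fin n) (Fin n) R) = 1 := by
  ext a b
  rcases a with _ | _ | i <;> rcases b with _ | _ | j <;> simp [bl, Matrix.one_apply]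

private theorem tn_one {R ι : Type*} [CommRing R] [DecidableEq ι] (d : ℕ) :
    tn d (1 : Matrix ι ι R) = 1 := by
  ext a b
  unfold tn
  by_cases h : a = b
  · subst h
    simp
  · rw [Matrix.one_apply_ne h]
    obtain ⟨i, hi⟩ := Function.ne_iff.1 h
    exact Finset.prod_eq_zero (Finset.mem_univ i) (Matrix.one_apply_ne hi)

private theorem tn_mulVec {R ι : Type*} [CommRing R] [Fintype ι] (d : ℕ) (A : Matrix ι ι R)
    (w : Fin d → ι → R) (γ : Fin d → R) (h : ∀ i, A.mulVec (w i) = γ i • w i) :
    (tn d A).mulVec (fun a => ∏ i, w i (a i)) = (∏ i, γ i) • fun a => ∏ i, w i (a i) := by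
  classical
  funext a
  have h1 : ∀ i, ∑ j, A (a i) j * w i j = γ i * w i (a i) := fun i => congrFun (h i) (a i)
  simp only [Matrix.mulVec, dotProduct, tn, Pi.smul_apply, smul_eq_mul, ← Finset.prod_mul_distrib]
  rw [← Finset.prod_congr rfl fun i _ => h1 i, Finset.prod_univ_sum, Fintype.piFinset_univ]

private theorem bl_eigen {K : Type*} [Field K] {n : ℕ} (M : Mat n K) (hM : M.det ≠ 0) (β : K)
    (h : β = 1 ∨ β = M.det⁻¹ ∨ M.charpoly.IsRoot β) :
    ∃ w : Option (Option (Fin n)) → K, w ≠ 0 ∧ (bl M.det M).mulVec w = (M.det * β) • w := by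
  rcases h with rfl | rfl | h
  · refine ⟨Pi.single none 1, fun h0 => ?_, ?_⟩
    · simpa using congrFun h0 none
    · rw [Matrix.mulVec_single_one, mul_one]
      funext a
      rcases a with _ | _ | i <;> simp [bl]
  · refine ⟨Pi.single (some none) 1, fun h0 => ?_, ?_⟩
    · simpa using congrFun h0 (some none)
    · rw [Matrix.mulVec_single_one, mul_inv_cancel₀ hM, one_smul]
      funext a
      rcases a with _ | _ | i <;> simp [bl]
  · have h1 : (Matrix.scalar (Fin n) β - M).det = 0 := by
      rw [← Matrix.eval_charpoly]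
      exact h
    obtain ⟨w, hw, hw'⟩ := Matrix.exists_mulVec_eq_zero_iff.2 h1
    have h2 : M.mulVec w = β • w := by
      rw [Matrix.sub_mulVec, sub_eq_zero] at hw'
      rw [← hw']
      funext i
      simp [Matrix.mulVec, Matrix.scalar_apply, Matrix.diagonal_apply, dotProduct]
    refine ⟨fun a => match a with | some (some i) => w i | _ => 0, fun h0 => hw ?_, ?_⟩
    · funext i
      exact congrFun h0 (some (some i))
    · funext a
      have h3 : ∀ i, ∑ j, M i j * w j = β * w i := fun i => congrFun h2 i
      rcases a with _ | _ | i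
      · simp [Matrix.mulVec, dotProduct, Fintype.sum_option, bl]
      · simp [Matrix.mulVec, dotProduct, Fintype.sum_option, bl]
      · simp only [Matrix.mulVec, dotProduct, Fintype.sum_option, bl, mul_zero, zero_add, Pi.smul_apply,
          smul_eq_mul, mul_assoc, ← Finset.mul_sum, h3]

theorem exists_test {K : Type*} [Field K] (n d : ℕ) {ζ : K} (hζ : ζ ≠ 1) :
    ∃ h : MvPolynomial (Fin n × Fin n) K, val (1 : Mat n K) h ≠ 0 ∧
      ∀ M : Mat n K, M.det ≠ 0 → (∃ β : Fin d → K, ζ = ∏ i, β i ∧
        ∀ i, β i = 1 ∨ β i = M.det⁻¹ ∨ M.charpoly.IsRoot (β i)) → val M h = 0 := by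
  classical
  let X : Matrix (Fin n) (Fin n) (MvPolynomial (Fin n × Fin n) K) := Matrix.of fun i j => MvPolynomial.X (i, j)
  let h : MvPolynomial (Fin n × Fin n) K :=
    (tn d (bl X.det X) - (MvPolynomial.C ζ * X.det ^ d) • (1 : Matrix _ _ (MvPolynomial (Fin n × Fin n) K))).det
  have hval : ∀ M : Mat n K, val M h = (tn d (bl M.det M) - (ζ * M.det ^ d) • (1 : Matrix _ _ K)).det := by
    intro M
    unfold val
    set φ : MvPolynomial (Fin n × Fin n) K →+* K := MvPolynomial.eval fun k : Fin n × Fin n => M k.1 k.2 with hφ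
    have hX : X.map φ = M := by
      ext i j
      simp [X, hφ]
    have hdet : φ X.det = M.det := by
      rw [RingHom.map_det, RingHom.mapMatrix_apply, hX]
    change φ h = _
    rw [RingHom.map_det]
    congr 1
    ext a b
    rw [RingHom.mapMatrix_apply, Matrix.map_apply, Matrix.sub_apply, Matrix.sub_apply, map_sub, Matrix.smul_apply,
      Matrix.smul_apply, smul_eq_mul, smul_eq_mul, map_mul, map_mul, map_pow, hdet]
    congr 1
    · unfold tn
      rw [map_prod]
      refine Finset.prod_congr rfl fun i _ => ?_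
      rw [map_bl, hdet, hX]
    · rw [Matrix.one_apply, Matrix.one_apply]
      congr 1
      · simp [hφ]
      · split_ifs <;> simp
  refine ⟨h, ?_, ?_⟩
  · rw [hval, Matrix.det_one, bl_one, tn_one, one_pow, mul_one]
    have h1 : (1 : Matrix (Fin d → Option (Option (Fin n))) (Fin d → Option (Option (Fin n))) K) -
        ζ • (1 : Matrix _ _ K) = (1 - ζ) • (1 : Matrix _ _ K) := by
      rw [sub_smul, one_smul]
    rw [h1, Matrix.det_smul, Matrix.det_one, mul_one]
    exact pow_ne_zero _ (sub_ne_zero.2 hζ.symm)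
  · rintro M hM ⟨β, hβ, hβ'⟩
    rw [hval]
    choose w hw hw' using fun i => bl_eigen M hM (β i) (hβ' i)
    refine Matrix.exists_mulVec_eq_zero_iff.1 ⟨fun a => ∏ i, w i (a i), fun h0 => ?_, ?_⟩
    · choose a ha using fun i => Function.ne_iff.1 (hw i)
      have h1 := congrFun h0 a
      exact Finset.prod_ne_zero_iff.2 (fun i _ => ha i) h1
    · rw [Matrix.sub_mulVec, tn_mulVec d _ w _ hw', Matrix.smul_mulVec, Matrix.one_mulVec, hβ, Finset.prod_mul_distrib,
        Finset.prod_const, Finset.card_univ, Fintype.card_fin, mul_comm (M.det ^ d), sub_self]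

end Pool.Agent.Helper40.CS
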