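import Pool.Agent.Helper40.CS.Ind
import Pool.Agent.Helper40.CS.Rou
import Pool.Agent.Helper40.CS.Test

/-!
# Block CS-SER: the group of components does not depend on the representation (Serre)

Suppose that `Conn τ₁ N` fails: `N' ≤ N` open, `f` vanishes on `N'` but not at `h ∈ N`; we can take `N'` normal in
`P` (`P` is profinite, see the proof of `cosets_of_null` in `ZO/NullB.lean`). Apply `indicator` to `G = N`,
`τ₁` restricted to `N`, `B₀ = N'.subgroupOf N` (finite index), the polynomial `f` regarded as a polynomial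
in the coordinates (`MvPolynomial.rename some`): `B ≠ ⊤`. Take `g ∈ N`, `g ∉ B`, `k` minimal with `k > 0`, `g ^ k ∈ B`
(finite index), `ζ ≠ 1` in `K₁` with `ζ ^ k = 1` (`k ≥ 2`, characteristic `0`: primitive roots of unity exist).
`root_of_unity` gives `d`; it applies to all `g' ∈ g N'` with the same `k` (`N'` normal, `N' ≤ B`).
Let `σ` be an `E`-homomorphism from the algebraic closure of `E` in `K₁` to `K₀` (`IsAlgClosed.lift`), `ζ₀ = σ ζ ≠ 1`.
For `g' ∈ g N' ∩ Fr` the `β i` are algebraic over `E` (roots of `p`, or `det (τ₁ g') = ± p 0`), and the `σ (β i)`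
satisfy the hypothesis of `exists_test` for `M = τ₀ g'` (same `p`; `det = (-1) ^ n * p.coeff 0`,
`Matrix.det_eq_sign_charpoly_coeff`). So `val (τ₀ g') h = 0` for `g' ∈ g N' ∩ Fr`, and by continuity for all
`g' ∈ g N' = N' g` (`Fr` is dense, `g N'` is open). So the polynomial `M ↦ h (M * τ₀ g)`
(`ZO.exists_val_right`) vanishes on `N'`, hence on `N` (`Conn τ₀ N`), in particular at `g⁻¹`: `val 1 h = 0`,
contradiction.
-/

set_option autoImplicit false

namespace Pool.Agent.Helper40.CS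

open Polynomial Pool.Agent.Helper40.ZO

private lemma ev_rename68 {K : Type*} [Field K] {n : ℕ} (M : Mat n K) (f : MvPolynomial (Fin n × Fin n) K) :
    ev M (MvPolynomial.rename some f) = val M f := by
  unfold ev val
  rw [MvPolynomial.eval_rename]
  rfl

private lemma transfer68 {E K₀ K₁ : Type*} [Field E] [Field K₀] [Field K₁] [Algebra E K₀]
    [Algebra E K₁] [IsAlgClosed K₀] {ζ : K₁} (hζ : ζ ≠ 1) {k : ℕ} (hk : 0 < k) (hζk : ζ ^ k = 1) :
    ∃ ζ₀ : K₀, ζ₀ ≠ 1 ∧ ∀ (d : ℕ) {n : ℕ} (M₀ : Mat n K₀) (M₁ : Mat n K₁) (p : E[X]),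
      M₀.charpoly = p.map (algebraMap E K₀) → M₁.charpoly = p.map (algebraMap E K₁) →
      (∃ β : Fin d → K₁, ζ = ∏ i, β i ∧ ∀ i, β i = 1 ∨ β i = M₁.det⁻¹ ∨ M₁.charpoly.IsRoot (β i)) →
      ∃ β : Fin d → K₀, ζ₀ = ∏ i, β i ∧ ∀ i, β i = 1 ∨ β i = M₀.det⁻¹ ∨ M₀.charpoly.IsRoot (β i) := by
  let σ : algebraicClosure E K₁ →ₐ[E] K₀ := IsAlgClosed.lift
  have hζa : ζ ∈ algebraicClosure E K₁ := by
    rw [mem_algebraicClosure_iff]
    refine ⟨X ^ k - 1, (monic_X_pow_sub_C (1 : E) hk.ne').ne_zero, ?_⟩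
    simp [hζk]
  refine ⟨σ ⟨ζ, hζa⟩, ?_, ?_⟩
  · intro h
    rw [← map_one σ] at h
    have h1 := σ.injective h
    exact hζ (congrArg Subtype.val h1)
  · rintro d n M₀ M₁ p hp₀ hp₁ ⟨β, hβ, hβi⟩
    have hp0 : p ≠ 0 := by
      rintro rfl
      rw [Polynomial.map_zero] at hp₁
      exact (Matrix.charpoly_monic M₁).ne_zero hp₁
    have hd₁ : M₁.det = algebraMap E K₁ ((-1) ^ n * p.coeff 0) := by
      rw [Matrix.det_eq_sign_charpoly_coeff, hp₁, coeff_map, Fintype.card_fin, map_mul, map_pow, map_neg,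
        map_one]
    have hd₀ : M₀.det = algebraMap E K₀ ((-1) ^ n * p.coeff 0) := by
      rw [Matrix.det_eq_sign_charpoly_coeff, hp₀, coeff_map, Fintype.card_fin, map_mul, map_pow, map_neg,
        map_one]
    have hroot : ∀ b : K₁, M₁.charpoly.IsRoot b → aeval b p = 0 := by
      intro b hb
      rw [hp₁, IsRoot.def, eval_map] at hb
      exact hb
    have hmem : ∀ i, β i ∈ algebraicClosure E K₁ := by
      intro i
      rcases hβi i with h | h | h
      · rw [h]
        exact one_mem _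
      · rw [h, hd₁, ← map_inv₀]
        exact (algebraicClosure E K₁).algebraMap_mem _
      · rw [mem_algebraicClosure_iff]
        exact ⟨p, hp0, hroot _ h⟩
    refine ⟨fun i => σ ⟨β i, hmem i⟩, ?_, ?_⟩
    · rw [← map_prod]
      congr 1
      apply Subtype.ext
      refine Eq.trans (show ((⟨ζ, hζa⟩ : algebraicClosure E K₁) : K₁) = ∏ i, β i from hβ) ?_
      exact (map_prod (algebraicClosure E K₁).val (fun i => (⟨β i, hmem i⟩ : algebraicClosure E K₁)) Finset.univ).symm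
    · intro i
      rcases hβi i with h | h | h
      · left
        have h1 : (⟨β i, hmem i⟩ : algebraicClosure E K₁) = 1 := Subtype.ext h
        change σ ⟨β i, hmem i⟩ = 1
        rw [h1, map_one]
      · right; left
        have h1 : (⟨β i, hmem i⟩ : algebraicClosure E K₁) =
            algebraMap E (algebraicClosure E K₁) ((-1) ^ n * p.coeff 0)⁻¹ := by
          apply Subtype.ext
          change β i = algebraMap E K₁ _
          rw [h, hd₁, map_inv₀]
        change σ ⟨β i, hmem i⟩ = _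
        rw [h1, AlgHom.commutes, hd₀, map_inv₀]
      · right; right
        change M₀.charpoly.IsRoot (σ ⟨β i, hmem i⟩)
        have h1 : aeval (⟨β i, hmem i⟩ : algebraicClosure E K₁) p = 0 := by
          apply Subtype.ext
          have h2 := aeval_algHom_apply (algebraicClosure E K₁).val (⟨β i, hmem i⟩ : algebraicClosure E K₁) p
          change (algebraicClosure E K₁).val (aeval (⟨β i, hmem i⟩ : algebraicClosure E K₁) p) = 0
          rw [← h2]
          exact hroot _ h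
        rw [hp₀, IsRoot.def, eval_map]
        change aeval (σ ⟨β i, hmem i⟩) p = 0
        rw [aeval_algHom_apply, h1, map_zero]

theorem conn_of_conn {E K₀ K₁ P : Type*} [Field E] [Field K₀] [Field K₁] [Algebra E K₀]
    [Algebra E K₁] [IsAlgClosed K₀] [IsAlgClosed K₁] [CharZero K₁] [TopologicalSpace K₀]
    [IsTopologicalRing K₀] [T2Space K₀] [Group P] [TopologicalSpace P] [IsTopologicalGroup P]
    [CompactSpace P] [TotallyDisconnectedSpace P] {n : ℕ} (τ₀ : P →* Mat n K₀)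
    (τ₁ : P →* Mat n K₁) (hτ₀ : Continuous τ₀) {Fr : Set P} (hFr : Dense Fr)
    (hcomp : ∀ x ∈ Fr, ∃ p : E[X], (τ₀ x).charpoly = p.map (algebraMap E K₀) ∧
      (τ₁ x).charpoly = p.map (algebraMap E K₁)) {N : Subgroup P} (hNo : IsOpen (N : Set P))
    (hN : Conn τ₀ N) : Conn τ₁ N := by
  classical
  intro N' hN'o hN'N f hf γ hγ
  by_contra hne
  obtain ⟨H, hH⟩ := ProfiniteGrp.exist_openNormalSubgroup_sub_open_nhds_of_one hN'o N'.one_mem
  obtain ⟨M, hMdef⟩ : ∃ M : Subgroup P, M = H.toSubgroup := ⟨_, rfl⟩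
  have hMn : M.Normal := hMdef ▸ H.isNormal'
  have hMo : IsOpen (M : Set P) := hMdef ▸ H.isOpen'
  have hMN' : M ≤ N' := by
    intro x hx
    rw [hMdef] at hx
    exact hH hx
  have hMN : M ≤ N := hMN'.trans hN'N
  have : Finite (P ⧸ M) := Subgroup.quotient_finite_of_isOpen M hMo
  have hMfi : M.FiniteIndex := Subgroup.finiteIndex_of_finite_quotient
  obtain ⟨B, F, hBle, h1, h0, hJ⟩ := indicator (τ₁.comp N.subtype) (M.subgroupOf N)
  set g : N := ⟨γ, hγ⟩ with hg
  have hgB : g ∉ B := by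
    intro hgB
    apply hne
    have h2 := hJ (MvPolynomial.rename some f) (by
      intro b hb
      rw [ev_rename68]
      exact hf _ (hMN' (Subgroup.mem_subgroupOf.1 hb))) g hgB
    rw [ev_rename68] at h2
    exact h2
  have hex : ∃ k, 0 < k ∧ g ^ k ∈ B := by
    obtain ⟨k, hk, -, hk'⟩ := Subgroup.exists_pow_mem_of_index_ne_zero
      (H := M.subgroupOf N) (Subgroup.FiniteIndex.index_ne_zero) g
    exact ⟨k, hk, hBle hk'⟩
  obtain ⟨hk0, hkB⟩ := Nat.find_spec hex
  have hkmin : ∀ j : ℕ, 0 < j → j < Nat.find hex → g ^ j ∉ B :=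
    fun j hj hjk hjB => Nat.find_min hex hjk ⟨hj, hjB⟩
  set k := Nat.find hex with hkdef
  have hk1 : 1 < k := by
    by_contra hcon
    have h2 : k = 1 := by omega
    rw [h2, pow_one] at hkB
    exact hgB hkB
  -- a primitive root of unity
  obtain ⟨ζ, hζ1, hζk⟩ : ∃ ζ : K₁, ζ ≠ 1 ∧ ζ ^ k = 1 := by
    have : NeZero (k : K₁) := ⟨Nat.cast_ne_zero.2 hk0.ne'⟩
    obtain ⟨ζ, hζ⟩ := IsAlgClosed.exists_root (cyclotomic k K₁) (degree_cyclotomic_pos k K₁ hk0).ne'
    have h2 := isRoot_cyclotomic_iff.1 hζ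
    exact ⟨ζ, h2.ne_one hk1, h2.pow_eq_one⟩
  obtain ⟨d, hd⟩ := root_of_unity (τ₁.comp N.subtype) h1 h0
  obtain ⟨ζ₀, hζ₀, htr⟩ := transfer68 (E := E) (K₀ := K₀) hζ1 hk0 hζk
  obtain ⟨h, hh1, hh⟩ := exists_test n d hζ₀
  -- the elements of the coset
  have hco : ∀ u ∈ M, ∀ j : ℕ, (∀ hx : γ * u ∈ N, (⟨γ * u, hx⟩ : N) ^ j ∈ B ↔ g ^ j ∈ B) := by
    intro u hu j hx
    have h2 : ((⟨γ * u, hx⟩ : N) : N ⧸ M.subgroupOf N) = (g : N ⧸ M.subgroupOf N) := by
      rw [eq_comm, QuotientGroup.eq, Subgroup.mem_subgroupOf]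
      have h3 : ((g⁻¹ * ⟨γ * u, hx⟩ : N) : P) = u := by
        change γ⁻¹ * (γ * u) = u
        group
      rw [h3]
      exact hu
    have h4 : (((⟨γ * u, hx⟩ : N) ^ j : N) : N ⧸ M.subgroupOf N) = ((g ^ j : N) : N ⧸ M.subgroupOf N) := by
      rw [QuotientGroup.mk_pow, QuotientGroup.mk_pow, h2]
    rw [eq_comm, QuotientGroup.eq] at h4
    have h5 := hBle h4
    constructor
    · intro h6
      have h7 := B.mul_mem h6 (B.inv_mem h5)
      have h8 : (⟨γ * u, hx⟩ : N) ^ j * ((g ^ j)⁻¹ * (⟨γ * u, hx⟩ : N) ^ j)⁻¹ = g ^ j := by group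
      rwa [h8] at h7
    · intro h6
      have h7 := B.mul_mem h6 h5
      rwa [mul_inv_cancel_left] at h7
  have hFrz : ∀ u ∈ M, γ * u ∈ Fr → val (τ₀ (γ * u)) h = 0 := by
    intro u hu hx
    have hxN : γ * u ∈ N := N.mul_mem hγ (hMN hu)
    obtain ⟨p, hp₀, hp₁⟩ := hcomp _ hx
    apply hh
    · have h2 : IsUnit (τ₀ (γ * u)) := (Group.isUnit (γ * u)).map τ₀
      exact ((Matrix.isUnit_iff_isUnit_det _).1 h2).ne_zero
    · refine htr d _ (τ₁ (γ * u)) p hp₀ hp₁ ?_
      exact hd ⟨γ * u, hxN⟩ k hk0 ((hco u hu k hxN).2 hkB)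
        (fun j hj hjk hjB => hkmin j hj hjk ((hco u hu j hxN).1 hjB)) ζ hζk
  -- continuity
  have hcl : IsClosed {x : P | val (τ₀ x) h = 0} := by
    refine isClosed_singleton.preimage (f := fun x => val (τ₀ x) h) ?_
    refine (MvPolynomial.continuous_eval h).comp ?_
    exact continuous_pi fun kk => (continuous_apply kk.2).comp ((continuous_apply kk.1).comp hτ₀)
  have hcz : ∀ u ∈ M, val (τ₀ (γ * u)) h = 0 := by
    intro u hu
    have hop : IsOpen ((fun x => γ⁻¹ * x) ⁻¹' (M : Set P)) := hMo.preimage (continuous_const_mul γ⁻¹)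
    have h2 := hFr.open_subset_closure_inter hop
    have h3 : γ * u ∈ (fun x => γ⁻¹ * x) ⁻¹' (M : Set P) := by
      change γ⁻¹ * (γ * u) ∈ M
      rwa [inv_mul_cancel_left]
    have h4 := h2 h3
    refine hcl.closure_subset_iff.2 ?_ h4
    rintro x ⟨hx1, hx2⟩
    change γ⁻¹ * x ∈ M at hx1
    have h5 := hFrz (γ⁻¹ * x) hx1 (by rwa [mul_inv_cancel_left])
    rwa [mul_inv_cancel_left] at h5
  obtain ⟨h', hh'⟩ := exists_val_right (τ₀ γ) h
  have h2 := hN M hMo hMN h' (by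
    intro u hu
    rw [hh', ← map_mul]
    have h3 : u * γ = γ * (γ⁻¹ * u * γ) := by group
    rw [h3]
    apply hcz
    have h4 := hMn.conj_mem u hu γ⁻¹
    rwa [inv_inv] at h4) γ⁻¹ (N.inv_mem hγ)
  rw [hh', ← map_mul, inv_mul_cancel, map_one] at h2
  exact hh1 h2

end Pool.Agent.Helper40.CS
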