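import Pool.Agent.Helper40.CS.Law
import Pool.Agent.Helper40.CS.Ser

/-!
# Compatible systems: the law for Jordan types with one subgroup, all primes at once (helper40)
-/

set_option autoImplicit false

namespace Pool.Agent.Helper40.CS

open Polynomial Pool.Agent.Helper40.ZO Pool.Agent.Helper40.LL Pool.Agent.Helper40.JL MeasureTheory

/-- The conclusion of the law for Jordan types. -/
def Law {K V P : Type*} [Field K] [AddCommGroup V] [Module K V] [FiniteDimensional K V] [Group P]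
    [TopologicalSpace P] [IsTopologicalGroup P] (ρ : P →* Module.End K V) (N : Subgroup P)
    (c : P ⧸ N) (l : K) (lam : ℕ → ℕ) : Prop :=
  (∀ y : P, (y : P ⧸ N) = c → ∀ j : ℕ, ∑ i ∈ Finset.range j, lam i ≤
    Module.finrank K (LinearMap.ker ((ρ y - algebraMap K (Module.End K V) l) ^ j))) ∧
  (∀ ε : ℝ, 0 < ε → ∃ M : Subgroup P, M.Normal ∧ IsOpen (M : Set P) ∧
    ((Set.ncard {d : P ⧸ M | ∃ y : P, (y : P ⧸ M) = d ∧ (y : P ⧸ N) = c ∧
      ∃ j : ℕ, nb (ρ y) l j ≠ lam j} : ℕ) : ℝ) ≤ ε * Nat.card (P ⧸ M)) ∧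
  ∀ A : Subgroup P, A.Normal → ActsSemisimply (ρ '' (A : Set P)) →
    ∀ x : P, (x : P ⧸ N) = c → IsOpen ((A ⊔ Subgroup.zpowers x).topologicalClosure : Set P) →
      (∀ j : ℕ, lam j ≤ nb (ρ x) l j) ∧
      ∀ r : ℕ, (∀ X ∈ commutant ρ A, IsNilpotent X → X ^ r = 0) → lam r = 0

/-- Compatible systems. -/
theorem compat_law {I : Type*} {E P : Type*} {K V : I → Type*} [Field E] [∀ i, Field (K i)]
    [∀ i, Algebra E (K i)] [∀ i, IsAlgClosed (K i)] [∀ i, CharZero (K i)]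
    [∀ i, TopologicalSpace (K i)] [∀ i, IsTopologicalRing (K i)] [∀ i, T2Space (K i)]
    [∀ i, AddCommGroup (V i)] [∀ i, Module (K i) (V i)] [∀ i, FiniteDimensional (K i) (V i)]
    [Group P] [TopologicalSpace P] [IsTopologicalGroup P] [CompactSpace P]
    [TotallyDisconnectedSpace P] (ρ : ∀ i, P →* Module.End (K i) (V i))
    (hρ : ∀ (i : I) (v : V i) (f : Module.Dual (K i) (V i)), Continuous fun x => f (ρ i x v))
    {Fr : Set P} (hFr : Dense Fr) (poly : P → E[X])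
    (hcomp : ∀ x ∈ Fr, ∀ i, (ρ i x).charpoly = (poly x).map (algebraMap E (K i))) :
    ∃ N : Subgroup P, N.Normal ∧ IsOpen (N : Set P) ∧
      ∃ lam : ∀ i, P ⧸ N → K i → ℕ → ℕ, (∀ i c l, Law (ρ i) N c l (lam i c l)) ∧
        ∀ (c : P ⧸ N) (l : E) (ε : ℝ), 0 < ε → ∃ M : Subgroup P, M.Normal ∧ IsOpen (M : Set P) ∧
          ((Set.ncard {d : P ⧸ M | ∃ x ∈ Fr, (x : P ⧸ M) = d ∧ (x : P ⧸ N) = c ∧
            ∃ i, lam i c (algebraMap E (K i) l) 1 = 0 ∧
              nb (ρ i x) (algebraMap E (K i) l) 1 ≠ 0} : ℕ) : ℝ) ≤ ε * Nat.card (P ⧸ M) := by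
  classical
  rcases isEmpty_or_nonempty I with hI | ⟨⟨i₀⟩⟩
  · refine ⟨⊤, inferInstance, isOpen_univ, fun i => hI.elim i, fun i => hI.elim i, ?_⟩
    intro c l ε hε
    refine ⟨⊤, inferInstance, isOpen_univ, ?_⟩
    have h2 : ∀ s : Set (P ⧸ (⊤ : Subgroup P)), s = ∅ →
        ((s.ncard : ℕ) : ℝ) ≤ ε * Nat.card (P ⧸ (⊤ : Subgroup P)) := by
      rintro s rfl
      rw [Set.ncard_empty, Nat.cast_zero]
      positivity
    refine h2 _ ?_
    rw [Set.eq_empty_iff_forall_notMem]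
    rintro d ⟨x, -, -, -, i, -⟩
    exact hI.elim i
  -- the common dimension
  obtain ⟨x₁, hx₁⟩ := hFr.nonempty
  obtain ⟨n, hn⟩ : ∃ n, n = (poly x₁).natDegree := ⟨_, rfl⟩
  have hdim : ∀ i, Module.finrank (K i) (V i) = n := by
    intro i
    have h1 := congrArg natDegree (hcomp x₁ hx₁ i)
    rw [LinearMap.charpoly_natDegree, natDegree_map] at h1
    rw [h1, hn]
  let b : ∀ i, Module.Basis (Fin n) (K i) (V i) := fun i =>
    Module.finBasisOfFinrankEq (K i) (V i) (hdim i)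
  obtain ⟨N, hNn, hNo, hmin⟩ := exists_min (mat (ρ i₀) (b i₀))
  have hconn₀ : Conn (mat (ρ i₀) (b i₀)) N := hmin
  have hconn : ∀ i, Conn (mat (ρ i) (b i)) N := by
    intro i
    refine conn_of_conn (E := E) (mat (ρ i₀) (b i₀)) (mat (ρ i) (b i))
      (mat_cont (ρ i₀) (hρ i₀) (b i₀)) hFr ?_ hNo hconn₀
    intro x hx
    exact ⟨poly x, by rw [mat_charpoly, hcomp x hx], by rw [mat_charpoly, hcomp x hx]⟩
  have hex := fun i (c : P ⧸ N) (l : K i) =>
    law_of_conn (ρ i) (hρ i) (b i) hNn hNo (hconn i) c l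
  choose lam h1 h2 h3 h4 using hex
  refine ⟨N, hNn, hNo, lam, fun i c l => ⟨h1 i c l, h2 i c l, h3 i c l⟩, ?_⟩
  intro c l ε hε
  -- the multiplicities
  have hmult : ∀ x ∈ Fr, ∀ i, (ρ i x).charpoly.rootMultiplicity (algebraMap E (K i) l) =
      (poly x).rootMultiplicity l := by
    intro x hx i
    rw [hcomp x hx i]
    exact (eq_rootMultiplicity_map (algebraMap E (K i)).injective l).symm
  -- the minimal multiplicity for `i₀`
  obtain ⟨y₀, hy₀, hy₀min⟩ := exists_min_nat (s := {y : P | (y : P ⧸ N) = c})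
    (QuotientGroup.mk_surjective c)
    (fun y => (ρ i₀ y).charpoly.rootMultiplicity (algebraMap E (K i₀) l))
  obtain ⟨E₀, hE0, hE0'⟩ := ker_open (b i₀)
    ((Polynomial.X - C (algebraMap E (K i₀) l)) ^ n) ⊤ (ρ i₀ y₀)
  obtain ⟨Z, hZ⟩ : ∃ Z : Set P, Z = {z | z * y₀⁻¹ ∈ N ∧ val (mat (ρ i₀) (b i₀) z) E₀ = 0} :=
    ⟨_, rfl⟩
  have hZcl : IsClosed Z := by
    rw [hZ]
    refine IsClosed.inter ?_ ?_
    · exact (Subgroup.isClosed_of_isOpen _ hNo).preimage (continuous_id.mul continuous_const)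
    · exact isClosed_eq (val_cont (mat_cont (ρ i₀) (hρ i₀) (b i₀)) E₀) continuous_const
  letI : MeasurableSpace P := borel P
  haveI : BorelSpace P := ⟨rfl⟩
  let μ : Measure P := Measure.haarMeasure ⊤
  have hZ0 : μ Z = 0 := by
    rw [hZ]
    exact null_of_poly μ (mat (ρ i₀) (b i₀)) (mat_cont (ρ i₀) (hρ i₀) (b i₀)) hNo hmin
      (D := E₀) (x₀ := y₀) hE0
  obtain ⟨M, hM1, hM2, hM3⟩ := cosets_of_null μ hZcl hZ0 hε
  refine ⟨M, hM1, hM2, le_trans ?_ hM3⟩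
  haveI : Finite (P ⧸ M) := Subgroup.quotient_finite_of_isOpen M hM2
  refine Nat.cast_le.2 (Set.ncard_le_ncard ?_ (Set.toFinite _))
  rintro d ⟨x, hxFr, hxd, hxc, i, hi, hns⟩
  refine ⟨x, ?_, hxd⟩
  by_contra hxZ
  apply hns
  -- the multiplicity of `x` is minimal
  have hx1 : (ρ i₀ x).charpoly.rootMultiplicity (algebraMap E (K i₀) l) ≤
      (ρ i₀ y₀).charpoly.rootMultiplicity (algebraMap E (K i₀) l) := by
    have h5 : val (mat (ρ i₀) (b i₀) x) E₀ ≠ 0 := by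
      intro h6
      apply hxZ
      rw [hZ]
      exact ⟨(mk_eq_iff hNn y₀ x).1 (hxc.trans hy₀.symm), h6⟩
    have h6 := hE0' _ h5
    rw [inf_top_eq, inf_top_eq, ← mult_eq _ _ (hdim i₀).le, ← mult_eq _ _ (hdim i₀).le] at h6
    exact h6
  -- a generic element of `Fr`
  obtain ⟨y, hyFr, hyc, hynb⟩ := h4 i c (algebraMap E (K i) l) Fr hFr
  have h5 : (ρ i y).charpoly.rootMultiplicity (algebraMap E (K i) l) =
      lam i c (algebraMap E (K i) l) 0 := by
    rw [← hynb 0]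
    exact mult_of_nb (by rw [hynb 1, hi])
  have h6 := hy₀min y hyc
  rw [hmult y hyFr i₀, ← hmult y hyFr i, h5] at h6
  have h7 := h1 i c (algebraMap E (K i) l) x hxc 1
  rw [Finset.sum_range_one, pow_one, ← nb_zero] at h7
  refine nb_of_mult ?_
  rw [hmult x hxFr i, ← hmult x hxFr i₀]
  exact hx1.trans (h6.trans h7)

end Pool.Agent.Helper40.CS
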