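import Pool.Agent.Helper40.CS.Defs

/-!
# Block CS-IND: the indicator function of the Zariski closure of a subgroup is a polynomial

`G` acts on `K ^ n` (`K` algebraically closed), `B₀` is a subgroup of finite index.  Let `J` be the ideal of
the polynomials `f` in the coordinates (`MvPolynomial (Option (Fin n × Fin n)) K`, value `ev M f` at an
invertible matrix `M`) which vanish on `B₀`, and `B = {g | ev (τ g) f = 0 for all f ∈ J}`.

For a point `z : Option (Fin n × Fin n) → K` write `z ∈ Z` if all `f ∈ J` vanish at `z`.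
If `f` is a polynomial and `A` a matrix, then `M ↦ f (A M)`, `M ↦ f (M A)` (with the last coordinate
multiplied by the inverse of `det A`) and `M ↦ f (M⁻¹)` (entries `δ adj(M)`, last coordinate `det M`, where
`δ` is the last coordinate) are given by polynomials in the coordinates (`MvPolynomial.bind₁`).
(a) `Z` consists of points with `det z * z none = 1` (the polynomial `det X * X_none - 1` is in `J`), that is of
points `pt M` with `M` invertible.
(b) `Z` is closed under inverses: for `f ∈ J` the polynomial `f (M⁻¹)` is in `J`, because `B₀` is a subgroup.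
(c) `Z` is closed under products: let `z, u ∈ Z`, `f ∈ J`. For `b ∈ B₀` the polynomial `f (M τ(b))` is in `J`, so
`f (z τ(b)) = 0` for all `b`, so the polynomial `f (z M)` is in `J`, so `f (z u) = 0`.
(d) So `B` is a subgroup, `B₀ ≤ B`, and all `f ∈ J` vanish on `B` (definition).
(e) Let `h ∉ B` and `J_h` the ideal of the polynomials vanishing on `h B`. Then `J ⊔ J_h = ⊤`. If not, by the
Nullstellensatz (`MvPolynomial.vanishingIdeal_zeroLocus_eq_radical`, or the fact that every proper ideal
has a zero) there is a common zero `z = pt M`. For `f ∈ J` the polynomial `f (τ(h)⁻¹ M)` is in `J_h`, so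
`u = τ(h)⁻¹ z ∈ Z`. By (b), (c) `z u⁻¹ = τ(h)` is in `Z`: `h ∈ B`, contradiction.
(f) For each of the finitely many left cosets `h B ≠ B` take `a + b = 1`, `a ∈ J`, `b ∈ J_h`; `F` is the product
of the `b`: it is `1` on `B` and `0` on all other cosets.
-/

set_option autoImplicit false

namespace Pool.Agent.Helper40.CS

open Pool.Agent.Helper40.ZO

private theorem aev {K : Type*} [Field K] {σ : Type*} (x : σ → K) (f : MvPolynomial σ K) :
    MvPolynomial.aeval x f = MvPolynomial.eval x f :=
  DFunLike.congr_fun (MvPolynomial.coe_aeval_eq_eval x) f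

open MvPolynomial in
private theorem ev_bind {K : Type*} [Field K] {n : ℕ} (M N : Mat n K)
    (g : Option (Fin n × Fin n) → MvPolynomial (Option (Fin n × Fin n)) K)
    (hg : ∀ k, MvPolynomial.eval (pt M) (g k) = pt N k) (f : MvPolynomial (Option (Fin n × Fin n)) K) :
    ev M (bind₁ g f) = ev N f := by
  unfold ev
  have h := aeval_bind₁ (pt M) g f
  simp only [aev] at h
  have h2 : (fun i => MvPolynomial.eval (pt M) (g i)) = pt N := funext hg
  rw [h2] at h
  exact h

/-- Left multiplication. -/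
private theorem exists_left {K : Type*} [Field K] {n : ℕ} (A : Mat n K)
    (f : MvPolynomial (Option (Fin n × Fin n)) K) :
    ∃ f' : MvPolynomial (Option (Fin n × Fin n)) K, ∀ M : Mat n K, ev M f' = ev (A * M) f := by
  refine ⟨MvPolynomial.bind₁ (fun
    | none => MvPolynomial.C (A.det⁻¹) * MvPolynomial.X none
    | some k => ∑ l, MvPolynomial.C (A k.1 l) * MvPolynomial.X (some (l, k.2))) f, fun M => ?_⟩
  refine ev_bind _ _ _ (fun k => ?_) f
  cases k with
  | none =>
    change MvPolynomial.eval (pt M) (MvPolynomial.C (A.det⁻¹) * MvPolynomial.X none) = (A * M).det⁻¹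
    rw [map_mul, MvPolynomial.eval_C, MvPolynomial.eval_X, Matrix.det_mul, mul_inv]
    rfl
  | some k =>
    change MvPolynomial.eval (pt M) (∑ l, MvPolynomial.C (A k.1 l) * MvPolynomial.X (some (l, k.2))) = (A * M) k.1 k.2
    rw [map_sum, Matrix.mul_apply]
    refine Finset.sum_congr rfl fun l _ => ?_
    rw [map_mul, MvPolynomial.eval_C, MvPolynomial.eval_X]
    rfl

/-- Right multiplication. -/
private theorem exists_right {K : Type*} [Field K] {n : ℕ} (A : Mat n K)
    (f : MvPolynomial (Option (Fin n × Fin n)) K) :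
    ∃ f' : MvPolynomial (Option (Fin n × Fin n)) K, ∀ M : Mat n K, ev M f' = ev (M * A) f := by
  refine ⟨MvPolynomial.bind₁ (fun
    | none => MvPolynomial.X none * MvPolynomial.C (A.det⁻¹)
    | some k => ∑ l, MvPolynomial.X (some (k.1, l)) * MvPolynomial.C (A l k.2)) f, fun M => ?_⟩
  refine ev_bind _ _ _ (fun k => ?_) f
  cases k with
  | none =>
    change MvPolynomial.eval (pt M) (MvPolynomial.X none * MvPolynomial.C (A.det⁻¹)) = (M * A).det⁻¹
    rw [map_mul, MvPolynomial.eval_C, MvPolynomial.eval_X, Matrix.det_mul, mul_inv]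
    rfl
  | some k =>
    change MvPolynomial.eval (pt M) (∑ l, MvPolynomial.X (some (k.1, l)) * MvPolynomial.C (A l k.2)) = (M * A) k.1 k.2
    rw [map_sum, Matrix.mul_apply]
    refine Finset.sum_congr rfl fun l _ => ?_
    rw [map_mul, MvPolynomial.eval_C, MvPolynomial.eval_X]
    rfl

/-- The generic matrix. -/
private noncomputable def gen (K : Type*) [Field K] (n : ℕ) :
    Matrix (Fin n) (Fin n) (MvPolynomial (Option (Fin n × Fin n)) K) :=
  fun i j => MvPolynomial.X (some (i, j))

private theorem map_gen {K : Type*} [Field K] {n : ℕ} (M : Mat n K) :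
    (MvPolynomial.eval (pt M)).mapMatrix (gen K n) = M := by
  ext i j
  change MvPolynomial.eval (pt M) (MvPolynomial.X (some (i, j))) = M i j
  rw [MvPolynomial.eval_X]
  rfl

private theorem eval_det {K : Type*} [Field K] {n : ℕ} (M : Mat n K) :
    MvPolynomial.eval (pt M) (gen K n).det = M.det := by
  rw [RingHom.map_det, map_gen]

/-- Inverses. -/
private theorem exists_inv {K : Type*} [Field K] {n : ℕ} (f : MvPolynomial (Option (Fin n × Fin n)) K) :
    ∃ f' : MvPolynomial (Option (Fin n × Fin n)) K, ∀ M : Mat n K, M.det ≠ 0 → ev M f' = ev M⁻¹ f := by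
  refine ⟨MvPolynomial.bind₁ (fun
    | none => (gen K n).det
    | some k => MvPolynomial.X none * (gen K n).adjugate k.1 k.2) f, fun M hM => ?_⟩
  refine ev_bind _ _ _ (fun k => ?_) f
  cases k with
  | none =>
    change MvPolynomial.eval (pt M) (gen K n).det = (M⁻¹).det⁻¹
    rw [eval_det, Matrix.det_nonsing_inv, Ring.inverse_eq_inv', inv_inv]
  | some k =>
    change MvPolynomial.eval (pt M) (MvPolynomial.X none * (gen K n).adjugate k.1 k.2) = M⁻¹ k.1 k.2
    have h1 : MvPolynomial.eval (pt M) ((gen K n).adjugate k.1 k.2) = M.adjugate k.1 k.2 := by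
      have h2 := (MvPolynomial.eval (pt M)).map_adjugate (gen K n)
      rw [map_gen] at h2
      exact congrFun (congrFun h2 k.1) k.2
    rw [map_mul, h1, MvPolynomial.eval_X, Matrix.inv_def, Ring.inverse_eq_inv']
    rfl

private theorem det_ne {K : Type*} [Field K] {G : Type*} [Group G] {n : ℕ} (τ : G →* Mat n K) (g : G) :
    (τ g).det ≠ 0 := by
  have h : (τ g).det * (τ g⁻¹).det = 1 := by
    rw [← Matrix.det_mul, ← map_mul, mul_inv_cancel, map_one, Matrix.det_one]
  exact left_ne_zero_of_mul_eq_one h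

private theorem tau_inv {K : Type*} [Field K] {G : Type*} [Group G] {n : ℕ} (τ : G →* Mat n K) (g : G) :
    (τ g)⁻¹ = τ g⁻¹ := by
  refine Matrix.inv_eq_right_inv ?_
  rw [← map_mul, mul_inv_cancel, map_one]

/-- The matrix `M` is in the Zariski closure of `B₀`. -/
private def InZ {K : Type*} [Field K] {G : Type*} [Group G] {n : ℕ} (τ : G →* Mat n K) (B₀ : Subgroup G)
    (M : Mat n K) : Prop :=
  ∀ f : MvPolynomial (Option (Fin n × Fin n)) K, (∀ b ∈ B₀, ev (τ b) f = 0) → ev M f = 0

private theorem InZ.mul {K : Type*} [Field K] {G : Type*} [Group G] {n : ℕ} {τ : G →* Mat n K} {B₀ : Subgroup G}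
    {M N : Mat n K} (hM : InZ τ B₀ M) (hN : InZ τ B₀ N) : InZ τ B₀ (M * N) := by
  intro f hf
  have h1 : ∀ b ∈ B₀, ev (M * τ b) f = 0 := by
    intro b hb
    obtain ⟨f', hf'⟩ := exists_right (τ b) f
    rw [← hf']
    refine hM f' fun c hc => ?_
    rw [hf', ← map_mul]
    exact hf _ (B₀.mul_mem hc hb)
  obtain ⟨f', hf'⟩ := exists_left M f
  rw [← hf']
  refine hN f' fun b hb => ?_
  rw [hf']
  exact h1 b hb

private theorem InZ.inv {K : Type*} [Field K] {G : Type*} [Group G] {n : ℕ} {τ : G →* Mat n K} {B₀ : Subgroup G}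
    {M : Mat n K} (hM : InZ τ B₀ M) (hd : M.det ≠ 0) : InZ τ B₀ M⁻¹ := by
  intro f hf
  obtain ⟨f', hf'⟩ := exists_inv f
  rw [← hf' M hd]
  refine hM f' fun b hb => ?_
  rw [hf' _ (det_ne τ b), tau_inv]
  exact hf _ (B₀.inv_mem hb)

/-- The Zariski closure of `B₀` in `G`. -/
private def clB {K : Type*} [Field K] {G : Type*} [Group G] {n : ℕ} (τ : G →* Mat n K) (B₀ : Subgroup G) :
    Subgroup G where
  carrier := {g | InZ τ B₀ (τ g)}
  one_mem' := fun f hf => hf 1 B₀.one_mem
  mul_mem' := fun {a b} ha hb => by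
    change InZ τ B₀ (τ (a * b))
    rw [map_mul]
    exact InZ.mul ha hb
  inv_mem' := fun {a} ha => by
    change InZ τ B₀ (τ a⁻¹)
    rw [← tau_inv]
    exact InZ.inv ha (det_ne τ a)

private theorem mem_clB {K : Type*} [Field K] {G : Type*} [Group G] {n : ℕ} {τ : G →* Mat n K} {B₀ : Subgroup G}
    {g : G} : g ∈ clB τ B₀ ↔ InZ τ B₀ (τ g) := Iff.rfl

private theorem sep {K : Type*} [Field K] [IsAlgClosed K] {G : Type*} [Group G] {n : ℕ} (τ : G →* Mat n K)
    (B₀ : Subgroup G) (h : G) (hh : h ∉ clB τ B₀) :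
    ∃ b : MvPolynomial (Option (Fin n × Fin n)) K, (∀ g ∈ clB τ B₀, ev (τ g) b = 1) ∧
      ∀ g ∈ clB τ B₀, ev (τ (h * g)) b = 0 := by
  let J : Ideal (MvPolynomial (Option (Fin n × Fin n)) K) :=
    { carrier := {f | ∀ b ∈ B₀, ev (τ b) f = 0}
      zero_mem' := fun b _ => map_zero _
      add_mem' := fun {f g} hf hg b hb => by
        change MvPolynomial.eval _ _ = 0
        rw [map_add]
        have h1 : MvPolynomial.eval (pt (τ b)) f = 0 := hf b hb
        have h2 : MvPolynomial.eval (pt (τ b)) g = 0 := hg b hb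
        rw [h1, h2, add_zero]
      smul_mem' := fun c f hf b hb => by
        change MvPolynomial.eval _ _ = 0
        rw [smul_eq_mul, map_mul]
        have h1 : MvPolynomial.eval (pt (τ b)) f = 0 := hf b hb
        rw [h1, mul_zero] }
  let Jh : Ideal (MvPolynomial (Option (Fin n × Fin n)) K) :=
    { carrier := {f | ∀ b ∈ clB τ B₀, ev (τ (h * b)) f = 0}
      zero_mem' := fun b _ => map_zero _
      add_mem' := fun {f g} hf hg b hb => by
        change MvPolynomial.eval _ _ = 0
        rw [map_add]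
        have h1 : MvPolynomial.eval (pt (τ (h * b))) f = 0 := hf b hb
        have h2 : MvPolynomial.eval (pt (τ (h * b))) g = 0 := hg b hb
        rw [h1, h2, add_zero]
      smul_mem' := fun c f hf b hb => by
        change MvPolynomial.eval _ _ = 0
        rw [smul_eq_mul, map_mul]
        have h1 : MvPolynomial.eval (pt (τ (h * b))) f = 0 := hf b hb
        rw [h1, mul_zero] }
  have htop : J ⊔ Jh = ⊤ := by
    by_contra hne
    have hz : (MvPolynomial.zeroLocus K (J ⊔ Jh)).Nonempty := by
      rw [Set.nonempty_iff_ne_empty]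
      intro h0
      have h1 := MvPolynomial.vanishingIdeal_zeroLocus_eq_radical (K := K) (J ⊔ Jh)
      rw [h0, MvPolynomial.vanishingIdeal_empty] at h1
      exact hne (Ideal.radical_eq_top.1 h1.symm)
    obtain ⟨z, hz⟩ := hz
    rw [MvPolynomial.mem_zeroLocus_iff] at hz
    let M : Mat n K := fun i j => z (some (i, j))
    have hmap : (MvPolynomial.eval z).mapMatrix (gen K n) = M := by
      ext i j
      change MvPolynomial.eval z (MvPolynomial.X (some (i, j))) = z (some (i, j))
      rw [MvPolynomial.eval_X]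
    have hdet : M.det * z none = 1 := by
      have h1 : ((gen K n).det * MvPolynomial.X none - 1 : MvPolynomial (Option (Fin n × Fin n)) K) ∈ J := by
        intro b _
        change MvPolynomial.eval _ _ = 0
        rw [map_sub, map_mul, eval_det, MvPolynomial.eval_X, map_one]
        change (τ b).det * ((τ b).det)⁻¹ - 1 = 0
        rw [mul_inv_cancel₀ (det_ne τ b), sub_self]
      have h2 := hz _ (Ideal.mem_sup_left h1)
      rw [aev, map_sub, map_mul, RingHom.map_det, hmap, MvPolynomial.eval_X, map_one,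
        sub_eq_zero] at h2
      exact h2
    have hd : M.det ≠ 0 := left_ne_zero_of_mul_eq_one hdet
    have hpt : pt M = z := by
      funext k
      cases k with
      | none =>
        change M.det⁻¹ = z none
        exact inv_eq_of_mul_eq_one_right hdet
      | some k => rfl
    have hev : ∀ f ∈ J ⊔ Jh, ev M f = 0 := by
      intro f hf
      have h1 := hz f hf
      rw [aev, ← hpt] at h1
      exact h1
    have hM : InZ τ B₀ M := fun f hf => hev f (Ideal.mem_sup_left hf)
    have hu : InZ τ B₀ (τ h⁻¹ * M) := by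
      intro f hf
      obtain ⟨f', hf'⟩ := exists_left (τ h⁻¹) f
      rw [← hf']
      refine hev f' (Ideal.mem_sup_right ?_)
      intro b hb
      rw [hf', ← map_mul, inv_mul_cancel_left]
      exact hb f hf
    have hdu : (τ h⁻¹ * M).det ≠ 0 := by
      rw [Matrix.det_mul]
      exact mul_ne_zero (det_ne τ _) hd
    have h3 := InZ.mul hM (InZ.inv hu hdu)
    have h4 : M * (τ h⁻¹ * M)⁻¹ = τ h := by
      rw [Matrix.mul_inv_rev, ← mul_assoc, Matrix.mul_nonsing_inv M (isUnit_iff_ne_zero.2 hd), one_mul, tau_inv, inv_inv]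
    rw [h4] at h3
    exact hh h3
  have h1 : (1 : MvPolynomial (Option (Fin n × Fin n)) K) ∈ J ⊔ Jh := by
    rw [htop]
    trivial
  obtain ⟨a, ha, b, hb, hab⟩ := Submodule.mem_sup.1 h1
  refine ⟨b, fun g hg => ?_, fun g hg => hb g hg⟩
  have h2 : ev (τ g) a = 0 := hg a ha
  have h3 : ev (τ g) (a + b) = ev (τ g) a + ev (τ g) b := map_add _ _ _
  rw [hab, h2, zero_add] at h3
  rw [← h3]
  exact map_one _

theorem indicator {K : Type*} [Field K] [IsAlgClosed K] {G : Type*} [Group G] {n : ℕ}
    (τ : G →* Mat n K) (B₀ : Subgroup G) [B₀.FiniteIndex] :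
    ∃ (B : Subgroup G) (F : MvPolynomial (Option (Fin n × Fin n)) K), B₀ ≤ B ∧
      (∀ b ∈ B, ev (τ b) F = 1) ∧ (∀ g : G, g ∉ B → ev (τ g) F = 0) ∧
      ∀ f : MvPolynomial (Option (Fin n × Fin n)) K, (∀ b ∈ B₀, ev (τ b) f = 0) →
        ∀ b ∈ B, ev (τ b) f = 0 := by
  classical
  have hle : B₀ ≤ clB τ B₀ := fun b hb f hf => hf b hb
  have hfi : (clB τ B₀).FiniteIndex := Subgroup.finiteIndex_of_le hle
  have hfin : Finite (G ⧸ clB τ B₀) := inferInstance
  have := Fintype.ofFinite (G ⧸ clB τ B₀)
  have hb : ∀ q : G ⧸ clB τ B₀, ∃ b : MvPolynomial (Option (Fin n × Fin n)) K,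
      (∀ g ∈ clB τ B₀, ev (τ g) b = 1) ∧ (q ≠ ((1 : G) : G ⧸ clB τ B₀) → ∀ g : G, (g : G ⧸ clB τ B₀) = q → ev (τ g) b = 0) := by
    intro q
    by_cases hq : q = ((1 : G) : G ⧸ clB τ B₀)
    · exact ⟨1, fun g _ => map_one _, fun h => absurd hq h⟩
    · obtain ⟨h, rfl⟩ := QuotientGroup.mk_surjective q
      have hh : h ∉ clB τ B₀ := by
        intro hh
        apply hq
        rw [QuotientGroup.eq, mul_one]
        exact (clB τ B₀).inv_mem hh
      obtain ⟨b, hb1, hb2⟩ := sep τ B₀ h hh
      refine ⟨b, hb1, fun _ g hg => ?_⟩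
      have h3 := hb2 (h⁻¹ * g) (QuotientGroup.eq.1 hg.symm)
      rw [mul_inv_cancel_left] at h3
      exact h3
  choose b hb1 hb2 using hb
  have hprod : ∀ g : G, ev (τ g) (∏ q, b q) = ∏ q, ev (τ g) (b q) := fun g => map_prod _ _ _
  refine ⟨clB τ B₀, ∏ q, b q, hle, fun g hg => ?_, fun g hg => ?_, fun f hf g hg => hg f hf⟩
  · rw [hprod]
    exact Finset.prod_eq_one fun q _ => hb1 q g hg
  · rw [hprod]
    refine Finset.prod_eq_zero (Finset.mem_univ (g : G ⧸ clB τ B₀)) (hb2 _ ?_ g rfl)
    intro h0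
    apply hg
    rw [eq_comm, QuotientGroup.eq, inv_one, one_mul] at h0
    exact h0

end Pool.Agent.Helper40.CS
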