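import Pool.Agent.Helper40.CS.Defs
import Pool.Agent.Helper40.JL.Young4

/-!
# The law for Jordan types, for a given subgroup with the property `Conn` (helper40)
-/

set_option autoImplicit false

namespace Pool.Agent.Helper40.CS

open Polynomial Pool.Agent.Helper40.ZO Pool.Agent.Helper40.LL Pool.Agent.Helper40.JL MeasureTheory

variable {K V : Type*} [Field K] [AddCommGroup V] [Module K V] [FiniteDimensional K V]

/-- The matrices of a representation. -/
noncomputable def mat {P : Type*} [Group P] (ρ : P →* Module.End K V) {n : ℕ}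
    (b : Module.Basis (Fin n) K V) : P →* Mat n K :=
  (LinearMap.toMatrixAlgEquiv b : Module.End K V →* Mat n K).comp ρ

omit [FiniteDimensional K V] in
theorem mat_apply {P : Type*} [Group P] (ρ : P →* Module.End K V) {n : ℕ}
    (b : Module.Basis (Fin n) K V) (x : P) : mat ρ b x = LinearMap.toMatrix b b (ρ x) := rfl

theorem mat_charpoly {P : Type*} [Group P] (ρ : P →* Module.End K V) {n : ℕ}
    (b : Module.Basis (Fin n) K V) (x : P) : (mat ρ b x).charpoly = (ρ x).charpoly := by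
  rw [mat_apply, LinearMap.charpoly_toMatrix]

section conts

variable {P : Type*} [Group P] [TopologicalSpace P] [TopologicalSpace K] [IsTopologicalRing K]

omit [FiniteDimensional K V] in
theorem mat_cont (ρ : P →* Module.End K V)
    (hρ : ∀ (v : V) (f : Module.Dual K V), Continuous fun x => f (ρ x v)) {n : ℕ}
    (b : Module.Basis (Fin n) K V) : Continuous (mat ρ b) := by
  refine continuous_matrix fun i j => ?_
  have h1 : (fun x => mat ρ b x i j) = fun x => (b.coord i) (ρ x (b j)) := by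
    funext x
    rw [mat_apply, LinearMap.toMatrix_apply]
    rfl
  rw [h1]
  exact hρ _ _

theorem val_cont {n : ℕ} {τ : P →* Mat n K} (hτ : Continuous τ)
    (f : MvPolynomial (Fin n × Fin n) K) : Continuous fun y => val (τ y) f := by
  have h1 : Continuous fun x : P => (fun k : Fin n × Fin n => τ x k.1 k.2) :=
    continuous_pi fun k => hτ.matrix_elem k.1 k.2
  exact (MvPolynomial.continuous_eval f).comp h1

end conts

theorem mk_eq_iff {P : Type*} [Group P] {N : Subgroup P} (hNn : N.Normal) (x y : P) :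
    (y : P ⧸ N) = (x : P ⧸ N) ↔ y * x⁻¹ ∈ N := by
  rw [eq_comm, QuotientGroup.eq]
  constructor
  · intro h
    have h3 := hNn.conj_mem _ h x
    simpa [mul_assoc] using h3
  · intro h
    have h3 := hNn.conj_mem _ h x⁻¹
    simpa [mul_assoc] using h3

/-- `nb` at `0` is the dimension of the eigenspace. -/
theorem nb_zero (T : Module.End K V) (l : K) :
    nb T l 0 = Module.finrank K (LinearMap.ker (T - algebraMap K (Module.End K V) l)) := by
  have h1 := blocks_eq (T - algebraMap K (Module.End K V) l) 0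
  rw [pow_zero, zero_add, pow_one] at h1
  have h2 : LinearMap.ker (1 : Module.End K V) = ⊥ := LinearMap.ker_id
  rw [h2, finrank_bot, add_zero] at h1
  unfold nb
  rw [pow_zero]
  exact h1

theorem ker_pow_eq_of_nb {T : Module.End K V} {l : K} (h : nb T l 1 = 0) (k : ℕ) :
    LinearMap.ker ((T - algebraMap K (Module.End K V) l) ^ (k + 1)) =
      LinearMap.ker (T - algebraMap K (Module.End K V) l) := by
  obtain ⟨D, hD⟩ : ∃ D : Module.End K V, D = T - algebraMap K (Module.End K V) l := ⟨_, rfl⟩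
  have h1 := blocks_eq D 1
  have h2 : Module.finrank K (LinearMap.ker D ⊓ LinearMap.range (D ^ 1) : Submodule K V) = 0 := by
    rw [hD]
    exact h
  rw [h2, zero_add, pow_one] at h1
  rw [← hD]
  have hle : LinearMap.ker D ≤ LinearMap.ker (D ^ (1 + 1)) := by
    intro v hv
    rw [LinearMap.mem_ker] at hv ⊢
    rw [pow_succ, Module.End.mul_apply, hv, map_zero]
  have h3 : LinearMap.ker (D ^ (1 + 1)) = LinearMap.ker D :=
    (Submodule.eq_of_le_of_finrank_eq hle h1).symm
  have h4 : ∀ v, (D ^ 2) v = 0 → D v = 0 := by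
    intro v hv
    have h5 : v ∈ LinearMap.ker (D ^ (1 + 1)) := hv
    rw [h3] at h5
    exact h5
  refine le_antisymm ?_ ?_
  · intro v hv
    exact ss_pow h4 (k + 1) v hv
  · intro v hv
    rw [LinearMap.mem_ker] at hv ⊢
    rw [pow_succ, Module.End.mul_apply, hv, map_zero]

/-- If all Jordan blocks have size `1` then the multiplicity is the dimension of the eigenspace. -/
theorem mult_of_nb {T : Module.End K V} {l : K} (h : nb T l 1 = 0) :
    T.charpoly.rootMultiplicity l = nb T l 0 := by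
  rw [nb_zero, mult_eq T l (N := Module.finrank K V + 1) (Nat.le_succ _), map_pow, map_sub,
    aeval_X, aeval_C, ker_pow_eq_of_nb h]

theorem nb_le_mult (T : Module.End K V) (l : K) : nb T l 0 ≤ T.charpoly.rootMultiplicity l := by
  rw [nb_zero, mult_eq T l (N := Module.finrank K V + 1) (Nat.le_succ _), map_pow, map_sub,
    aeval_X, aeval_C]
  refine Submodule.finrank_mono ?_
  intro v hv
  rw [LinearMap.mem_ker] at hv ⊢
  rw [pow_succ, Module.End.mul_apply, hv, map_zero]

theorem nb_of_mult {T : Module.End K V} {l : K} (h : T.charpoly.rootMultiplicity l ≤ nb T l 0) :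
    nb T l 1 = 0 := by
  rw [nb_zero, mult_eq T l (N := Module.finrank K V + 2) (by omega), map_pow, map_sub,
    aeval_X, aeval_C] at h
  have h1 := blocks_eq (T - algebraMap K (Module.End K V) l) 1
  have h2 : Module.finrank K (LinearMap.ker ((T - algebraMap K (Module.End K V) l) ^ (1 + 1))) ≤
      Module.finrank K (LinearMap.ker
        ((T - algebraMap K (Module.End K V) l) ^ (Module.finrank K V + 2))) := by
    refine Submodule.finrank_mono ?_
    intro v hv
    rw [LinearMap.mem_ker] at hv ⊢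
    rw [pow_add, Module.End.mul_apply]
    have h3 : ((T - algebraMap K (Module.End K V) l) ^ 2) v = 0 := hv
    rw [h3, map_zero]
  rw [pow_one] at h1
  unfold nb
  rw [pow_one]
  omega

variable [IsAlgClosed K] [CharZero K]

variable {P : Type*} [Group P] [TopologicalSpace P] [IsTopologicalGroup P] [CompactSpace P]
  [TotallyDisconnectedSpace P] [TopologicalSpace K] [IsTopologicalRing K] [T2Space K]

/-- The law for Jordan types, for a subgroup `N` with the property `Conn`. -/
theorem law_of_conn (ρ : P →* Module.End K V)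
    (hρ : ∀ (v : V) (f : Module.Dual K V), Continuous fun x => f (ρ x v)) {n : ℕ}
    (b : Module.Basis (Fin n) K V) {N : Subgroup P} (hNn : N.Normal) (hNo : IsOpen (N : Set P))
    (hmin : Conn (mat ρ b) N) (c : P ⧸ N) (l : K) : ∃ lam : ℕ → ℕ,
      (∀ y : P, (y : P ⧸ N) = c → ∀ j : ℕ, ∑ i ∈ Finset.range j, lam i ≤
        Module.finrank K (LinearMap.ker ((ρ y - algebraMap K (Module.End K V) l) ^ j))) ∧
      (∀ ε : ℝ, 0 < ε → ∃ M : Subgroup P, M.Normal ∧ IsOpen (M : Set P) ∧
        ((Set.ncard {d : P ⧸ M | ∃ y : P, (y : P ⧸ M) = d ∧ (y : P ⧸ N) = c ∧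
          ∃ j : ℕ, nb (ρ y) l j ≠ lam j} : ℕ) : ℝ) ≤ ε * Nat.card (P ⧸ M)) ∧
      (∀ A : Subgroup P, A.Normal → ActsSemisimply (ρ '' (A : Set P)) →
        ∀ x : P, (x : P ⧸ N) = c → IsOpen ((A ⊔ Subgroup.zpowers x).topologicalClosure : Set P) →
          (∀ j : ℕ, lam j ≤ nb (ρ x) l j) ∧
          ∀ r : ℕ, (∀ X ∈ commutant ρ A, IsNilpotent X → X ^ r = 0) → lam r = 0) ∧
      ∀ Fr : Set P, Dense Fr → ∃ y ∈ Fr, (y : P ⧸ N) = c ∧ ∀ j : ℕ, nb (ρ y) l j = lam j := by
  classical
  have hn : n = Module.finrank K V := by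
    rw [Module.finrank_eq_card_basis b, Fintype.card_fin]
  obtain ⟨ρ', hρ'⟩ : ∃ ρ' : P →* Mat n K, ρ' = mat ρ b := ⟨_, rfl⟩
  have hρ'x : ∀ x, ρ' x = LinearMap.toMatrix b b (ρ x) := fun x => by rw [hρ', mat_apply]
  have hρ'c : Continuous ρ' := by
    rw [hρ']
    exact mat_cont ρ hρ b
  rw [← hρ'] at hmin
  have hvalc := val_cont hρ'c
  letI : MeasurableSpace P := borel P
  haveI : BorelSpace P := ⟨rfl⟩
  have hnull : ∀ (μ : Measure P), μ.IsHaarMeasure →
      ∀ (D : MvPolynomial (Fin n × Fin n) K) (x₀ : P), val (ρ' x₀) D ≠ 0 →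
        μ {z | z * x₀⁻¹ ∈ N ∧ val (ρ' z) D = 0} = 0 := fun μ hμ D x₀ h =>
    null_of_poly μ ρ' hρ'c hNo hmin (D := D) (x₀ := x₀) h
  have hclass := mk_eq_iff hNn
  obtain ⟨x₀, hx₀⟩ := QuotientGroup.mk_surjective c
  obtain ⟨kd, hkd⟩ : ∃ kd : ℕ → P → ℕ, ∀ j y, kd j y =
      Module.finrank K (LinearMap.ker ((ρ y - algebraMap K (Module.End K V) l) ^ j)) :=
    ⟨fun j y => _, fun _ _ => rfl⟩
  have hex : ∀ j, ∃ y ∈ {y : P | (y : P ⧸ N) = c}, ∀ z ∈ {y : P | (y : P ⧸ N) = c},
      kd j y ≤ kd j z := fun j => exists_min_nat ⟨x₀, hx₀⟩ (kd j)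
  choose m hmc hmmin using hex
  obtain ⟨κ, hκ⟩ : ∃ κ : ℕ → ℕ, ∀ j, κ j = kd j (m j) := ⟨fun j => kd j (m j), fun _ => rfl⟩
  have hκle : ∀ j (y : P), (y : P ⧸ N) = c → κ j ≤ kd j y := by
    intro j y hy
    rw [hκ]
    exact hmmin j y hy
  have hnb : ∀ j y, nb (ρ y) l j + kd j y = kd (j + 1) y := by
    intro j y
    rw [hkd, hkd]
    exact blocks_eq _ j
  have hmono : ∀ j, κ j ≤ κ (j + 1) := by
    intro j
    have h1 := hκle j _ (hmc (j + 1))
    have h2 := hnb j (m (j + 1))
    rw [hκ (j + 1)]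
    omega
  have hκ0 : κ 0 = 0 := by
    rw [hκ, hkd, pow_zero]
    have h1 : LinearMap.ker (1 : Module.End K V) = ⊥ := LinearMap.ker_id
    rw [h1, finrank_bot]
  obtain ⟨lam, hlam⟩ : ∃ lam : ℕ → ℕ, ∀ j, lam j + κ j = κ (j + 1) :=
    ⟨fun j => κ (j + 1) - κ j, fun j => Nat.sub_add_cancel (hmono j)⟩
  have hsum : ∀ j, ∑ i ∈ Finset.range j, lam i = κ j := by
    intro j
    induction j with
    | zero => rw [Finset.sum_range_zero, hκ0]
    | succ j ih => rw [Finset.sum_range_succ, ih, add_comm, hlam]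
  -- the kernels stabilize
  have hstable : ∀ j, n ≤ j → ∀ y, kd j y = kd n y := by
    intro j hj y
    rw [hkd, hkd]
    have h1 := Module.End.ker_pow_eq_ker_pow_finrank_of_le
      (f := (ρ y - algebraMap K (Module.End K V) l)) (m := j) (by rw [← hn]; exact hj)
    rw [h1, ← hn]
  have hκst : ∀ j, n ≤ j → κ j = κ n := by
    intro j hj
    refine le_antisymm ?_ ?_
    · have h1 := hκle j _ (hmc n)
      rw [hstable j hj, ← hκ] at h1
      exact h1
    · have h1 := hκle n _ (hmc j)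
      rw [← hstable j hj, ← hκ] at h1
      exact h1
  have hE : ∀ j : Fin (n + 1), ∃ E : MvPolynomial (Fin n × Fin n) K,
      val (ρ' (m j)) E ≠ 0 ∧ ∀ y, val (ρ' y) E ≠ 0 → kd j y ≤ κ j := by
    intro j
    obtain ⟨E, h1, h2⟩ := ker_open b ((Polynomial.X - C l) ^ (j : ℕ)) ⊤ (ρ (m j))
    refine ⟨E, by rw [hρ'x]; exact h1, fun y hy => ?_⟩
    rw [hρ'x] at hy
    have h3 := h2 _ hy
    rw [inf_top_eq, inf_top_eq, map_pow, map_sub, aeval_X, aeval_C, map_pow, map_sub, aeval_X,
      aeval_C, ← hkd, ← hkd, ← hκ] at h3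
    exact h3
  choose E hE1 hE2 using hE
  have hgood : ∀ y : P, (y : P ⧸ N) = c → (∀ j, val (ρ' y) (E j) ≠ 0) →
      ∀ j, nb (ρ y) l j = lam j := by
    intro y hy hyE
    have h1 : ∀ j, kd j y = κ j := by
      intro j
      rcases Nat.lt_or_ge j (n + 1) with hj | hj
      · exact le_antisymm (hE2 ⟨j, hj⟩ y (hyE _)) (hκle j y hy)
      · rw [hstable j (by omega), hκst j (by omega)]
        exact le_antisymm (hE2 ⟨n, Nat.lt_succ_self n⟩ y (hyE _)) (hκle n y hy)
    intro j
    have h2 := hnb j y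
    have h3 := hlam j
    rw [h1, h1] at h2
    omega
  obtain ⟨Z, hZ⟩ : ∃ Z : Set P, Z = ⋃ j : Fin (n + 1),
      {z | z * (m j)⁻¹ ∈ N ∧ val (ρ' z) (E j) = 0} := ⟨_, rfl⟩
  have hZcl : IsClosed Z := by
    rw [hZ]
    refine isClosed_iUnion_of_finite fun j => ?_
    refine IsClosed.inter ?_ ?_
    · exact (Subgroup.isClosed_of_isOpen _ hNo).preimage (continuous_id.mul continuous_const)
    · exact isClosed_eq (hvalc (E j)) continuous_const
  let μ : Measure P := Measure.haarMeasure ⊤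
  have hZ0 : μ Z = 0 := by
    rw [hZ]
    exact measure_iUnion_null fun j => hnull μ inferInstance (E j) (m j) (hE1 j)
  have hgoodZ : ∀ y : P, (y : P ⧸ N) = c → y ∉ Z → ∀ j, nb (ρ y) l j = lam j := by
    intro y hyc hyZ
    refine hgood y hyc ?_
    intro i hi
    refine hyZ ?_
    rw [hZ]
    refine Set.mem_iUnion.2 ⟨i, ?_, hi⟩
    have h1 : (y : P ⧸ N) = (m i : P) := hyc.trans (hmc i).symm
    exact (hclass _ _).1 h1
  have hcopen : IsOpen {y : P | (y : P ⧸ N) = c} := by
    have h1 : {y : P | (y : P ⧸ N) = c} = {y : P | y * x₀⁻¹ ∈ N} := by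
      ext y
      rw [Set.mem_setOf_eq, Set.mem_setOf_eq, ← hx₀]
      exact hclass x₀ y
    rw [h1]
    exact hNo.preimage (continuous_id.mul continuous_const)
  refine ⟨lam, ?_, ?_, ?_, ?_⟩
  · intro y hy j
    rw [hsum, ← hkd]
    exact hκle j y hy
  · intro ε hε
    obtain ⟨M, hM1, hM2, hM3⟩ := cosets_of_null μ hZcl hZ0 hε
    refine ⟨M, hM1, hM2, le_trans ?_ hM3⟩
    haveI : Finite (P ⧸ M) := Subgroup.quotient_finite_of_isOpen M hM2
    refine Nat.cast_le.2 (Set.ncard_le_ncard ?_ (Set.toFinite _))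
    rintro d ⟨y, hyd, hyc, j, hj⟩
    refine ⟨y, ?_, hyd⟩
    by_contra hyZ
    exact hj (hgoodZ y hyc hyZ j)
  · intro A hAn hA x hxc hopen
    obtain ⟨X, hXC, hX, hXj⟩ := core ρ hρ b hρ'x hvalc hNo hnull hAn hA (l := l) hopen (κ := κ)
      (fun j z hz => by
        rw [← hkd]
        exact hκle j z (((hclass x z).2 hz).trans hxc))
      (fun j => ⟨m j, (hclass x (m j)).1 ((hmc j).trans hxc.symm), by
        rw [← hkd, ← hκ]⟩)
    refine ⟨?_, ?_⟩
    · intro j
      obtain ⟨h1, h2⟩ := hXj j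
      have h3 := Submodule.finrank_mono h2
      have h4 := hlam j
      unfold nb
      omega
    · intro r hr
      obtain ⟨h1, -⟩ := hXj r
      have h3 : (LinearMap.ker (ρ x - algebraMap K (Module.End K V) l) ⊓
          (LinearMap.ker X ⊓ LinearMap.range (X ^ r)) : Submodule K V) = ⊥ := by
        rw [hr X hXC hX, LinearMap.range_zero, inf_bot_eq, inf_bot_eq]
      rw [h3, finrank_bot] at h1
      have h4 := hlam r
      omega
  · intro Fr hFr
    have hO : IsOpen ({y : P | (y : P ⧸ N) = c} ∩ Zᶜ) := hcopen.inter hZcl.isOpen_compl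
    have hne : ({y : P | (y : P ⧸ N) = c} ∩ Zᶜ).Nonempty := by
      by_contra hcon
      rw [Set.not_nonempty_iff_eq_empty] at hcon
      have h1 : {y : P | (y : P ⧸ N) = c} ⊆ Z := by
        intro y hy
        by_contra hyZ
        have h2 : y ∈ ({y : P | (y : P ⧸ N) = c} ∩ Zᶜ) := ⟨hy, hyZ⟩
        rw [hcon] at h2
        exact h2
      exact (hcopen.measure_pos μ ⟨x₀, hx₀⟩).ne' (measure_mono_null h1 hZ0)
    obtain ⟨y, hy1, hy2⟩ := hFr.inter_open_nonempty _ hO hne
    exact ⟨y, hy2, hy1.1, hgoodZ y hy1.1 hy1.2⟩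

end Pool.Agent.Helper40.CS
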