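import Pool.Agent.Helper40.CS.Zero

/-!
# A Frobenius element with the maximal number of eigenvalues in its coset is semisimple for all primes
(helper40; extracted from `few_all`)
-/

set_option autoImplicit false

namespace Pool.Agent.Helper40.CS

open Polynomial Pool.Agent.Helper40.ZO Pool.Agent.Helper40.LL Pool.Agent.Helper40.JL

/-- If `x ∈ Fr` has the maximal number of different eigenvalues on the coset `B x` of an open normal
subgroup `B` in ONE representation `ρ i₀`, then `ρ i x` is semisimple for all `i`. -/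
theorem ss_of_max {I : Type*} {E P : Type*} {K V : I → Type*} [Field E] [∀ i, Field (K i)]
    [∀ i, Algebra E (K i)] [∀ i, IsAlgClosed (K i)] [∀ i, CharZero (K i)]
    [∀ i, TopologicalSpace (K i)] [∀ i, IsTopologicalRing (K i)] [∀ i, T2Space (K i)]
    [∀ i, AddCommGroup (V i)] [∀ i, Module (K i) (V i)] [∀ i, FiniteDimensional (K i) (V i)]
    [Group P] [TopologicalSpace P] [IsTopologicalGroup P] [CompactSpace P]
    [TotallyDisconnectedSpace P] (ρ : ∀ i, P →* Module.End (K i) (V i))
    (hρ : ∀ (i : I) (v : V i) (f : Module.Dual (K i) (V i)), Continuous fun x => f (ρ i x v))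
    {Fr : Set P} (hFr : Dense Fr) (poly : P → E[X])
    (hcomp : ∀ x ∈ Fr, ∀ i, (ρ i x).charpoly = (poly x).map (algebraMap E (K i)))
    (hss : ∀ i, ActsSemisimply (ρ i '' (Set.univ : Set P)))
    (B : Subgroup P) [B.Normal] (hB : IsOpen (B : Set P)) (i₀ : I) {x : P} (hx : x ∈ Fr)
    (hmax : ∀ g ∈ B, numEig (ρ i₀ (g * x)) ≤ numEig (ρ i₀ x)) (i : I) :
    (ρ i x).IsSemisimple := by
  classical
  have hnum : ∀ x ∈ Fr, ∀ i, numEig (ρ i x) = numEig (ρ i₀ x) := by
    intro x hx i
    unfold numEig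
    rw [hcomp x hx i, hcomp x hx i₀]
    exact card_roots_eq _
  refine criterion_open (ρ i) (hρ i) (hss i) (B := B) ?_ ?_
  · exact Subgroup.isOpen_mono (le_sup_left.trans (Subgroup.le_topologicalClosure _)) hB
  · intro γ hγ
    by_contra hlt
    push Not at hlt
    obtain ⟨U, hU, hγU, hUle⟩ := numEig_open (ρ i) (hρ i) (γ * x)
    have hO : IsOpen (U ∩ {z | z * x⁻¹ ∈ B}) :=
      hU.inter (hB.preimage (continuous_id.mul continuous_const))
    obtain ⟨z, ⟨hzU, hzB⟩, hzFr⟩ := hFr.inter_open_nonempty _ hO ⟨γ * x, hγU, by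
      rw [Set.mem_setOf_eq, mul_inv_cancel_right]
      exact hγ⟩
    have h1 := hUle z hzU
    have h2 := hmax (z * x⁻¹) hzB
    rw [inv_mul_cancel_right] at h2
    have h3 := hnum z hzFr i
    have h4 := hnum x hx i
    omega

end Pool.Agent.Helper40.CS
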