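import Pool.Agent.Helper40.CS.Law
import Pool.Agent.Helper40.ZO.Fin3

/-!
# The zero-one law for compatible systems, all primes at once (helper40)
-/

set_option autoImplicit false

namespace Pool.Agent.Helper40.CS

open Polynomial Pool.Agent.Helper40.ZO Pool.Agent.Helper40.LL Pool.Agent.Helper40.JL MeasureTheory

section semicont

variable {K V : Type*} [Field K] [AddCommGroup V] [Module K V] [FiniteDimensional K V]
  [IsAlgClosed K] [CharZero K] {P : Type*} [Group P] [TopologicalSpace P] [TopologicalSpace K]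
  [IsTopologicalRing K] [T2Space K]

theorem numEig_mat (ρ : P →* Module.End K V) {n : ℕ} (b : Module.Basis (Fin n) K V) (x : P) :
    numEig (ρ x) = numEigM (mat ρ b x) := by
  unfold numEig numEigM
  rw [mat_charpoly]

theorem hankel_of_lt {n s : ℕ} {M : Mat n K} (h : numEigM M < s) :
    (Matrix.of fun a b : Fin s => Matrix.trace (M ^ ((a : ℕ) + b))).det = 0 := by
  obtain ⟨r, rfl⟩ : ∃ r, s = r + 1 := ⟨s - 1, by omega⟩
  have h1 := hankel_vanish M (Nat.le_of_lt_succ h) 1
  simpa only [map_one, one_mul] using h1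

/-- The number of different eigenvalues is lower semicontinuous. -/
theorem numEig_open (ρ : P →* Module.End K V)
    (hρ : ∀ (v : V) (f : Module.Dual K V), Continuous fun x => f (ρ x v)) (z₀ : P) :
    ∃ U : Set P, IsOpen U ∧ z₀ ∈ U ∧ ∀ z ∈ U, numEig (ρ z₀) ≤ numEig (ρ z) := by
  let b := Module.finBasis K V
  obtain ⟨r, hr⟩ : ∃ r, r = numEigM (mat ρ b z₀) := ⟨_, rfl⟩
  have hcont : Continuous fun z : P =>
      (Matrix.of fun a c : Fin r => Matrix.trace ((mat ρ b z) ^ ((a : ℕ) + c))).det := by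
    refine Continuous.matrix_det ?_
    refine continuous_matrix fun i j => ?_
    exact Continuous.matrix_trace ((mat_cont ρ hρ b).pow _)
  refine ⟨{z | (Matrix.of fun a c : Fin r => Matrix.trace ((mat ρ b z) ^ ((a : ℕ) + c))).det ≠ 0},
    isOpen_ne_fun hcont continuous_const, ?_, ?_⟩
  · intro h0
    have h1 := (numEigM_lt_iff (hr ▸ le_rfl : numEigM (mat ρ b z₀) ≤ r)).2 h0
    omega
  · intro z hz
    rw [numEig_mat ρ b, numEig_mat ρ b, ← hr]
    by_contra hlt
    push Not at hlt
    exact hz (hankel_of_lt hlt)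

end semicont

open Classical in
theorem card_roots_closure {E L : Type*} [Field E] [Field L] [Algebra E L] [IsAlgClosed L]
    (p : E[X]) : (p.map (algebraMap E L)).roots.toFinset.card =
      (p.map (algebraMap E (AlgebraicClosure E))).roots.toFinset.card := by
  let σ : AlgebraicClosure E →ₐ[E] L := IsAlgClosed.lift
  have h1 : p.map (algebraMap E L) =
      (p.map (algebraMap E (AlgebraicClosure E))).map (σ : AlgebraicClosure E →+* L) := by
    rw [Polynomial.map_map]
    congr 1
    exact (σ.comp_algebraMap).symm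
  have h2 : (p.map (algebraMap E L)).roots =
      ((p.map (algebraMap E (AlgebraicClosure E))).roots).map (σ : AlgebraicClosure E →+* L) := by
    rw [h1]
    exact (Polynomial.Splits.roots_map (IsAlgClosed.splits _) (σ : AlgebraicClosure E →+* L))
  rw [h2, Multiset.toFinset_map]
  exact Finset.card_image_of_injective _ (RingHom.injective _)

open Classical in
/-- The number of different roots does not depend on the algebraically closed field. -/
theorem card_roots_eq {E K K' : Type*} [Field E] [Field K] [Field K'] [Algebra E K] [Algebra E K']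
    [IsAlgClosed K] [IsAlgClosed K'] (p : E[X]) :
    (p.map (algebraMap E K)).roots.toFinset.card = (p.map (algebraMap E K')).roots.toFinset.card :=
  (card_roots_closure (L := K) p).trans (card_roots_closure (L := K') p).symm

/-- Few elements are not semisimple, all primes at once. -/
theorem few_all {I : Type*} {E P : Type*} {K V : I → Type*} [Field E] [∀ i, Field (K i)]
    [∀ i, Algebra E (K i)] [∀ i, IsAlgClosed (K i)] [∀ i, CharZero (K i)]
    [∀ i, TopologicalSpace (K i)] [∀ i, IsTopologicalRing (K i)] [∀ i, T2Space (K i)]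
    [∀ i, AddCommGroup (V i)] [∀ i, Module (K i) (V i)] [∀ i, FiniteDimensional (K i) (V i)]
    [Group P] [TopologicalSpace P] [IsTopologicalGroup P] [CompactSpace P]
    [TotallyDisconnectedSpace P] (ρ : ∀ i, P →* Module.End (K i) (V i))
    (hρ : ∀ (i : I) (v : V i) (f : Module.Dual (K i) (V i)), Continuous fun x => f (ρ i x v))
    {Fr : Set P} (hFr : Dense Fr) (poly : P → E[X])
    (hcomp : ∀ x ∈ Fr, ∀ i, (ρ i x).charpoly = (poly x).map (algebraMap E (K i)))
    (hss : ∀ i, ActsSemisimply (ρ i '' (Set.univ : Set P))) {ε : ℝ} (hε : 0 < ε) :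
    ∃ N : Subgroup P, N.Normal ∧ IsOpen (N : Set P) ∧
      ((Set.ncard {c : P ⧸ N | ∃ x ∈ Fr, (x : P ⧸ N) = c ∧ ∃ i, ¬ (ρ i x).IsSemisimple} : ℕ) : ℝ) ≤
        ε * Nat.card (P ⧸ N) := by
  classical
  rcases isEmpty_or_nonempty I with hI | ⟨⟨i₀⟩⟩
  · refine ⟨⊤, inferInstance, isOpen_univ, ?_⟩
    have h2 : ∀ s : Set (P ⧸ (⊤ : Subgroup P)), s = ∅ →
        ((s.ncard : ℕ) : ℝ) ≤ ε * Nat.card (P ⧸ (⊤ : Subgroup P)) := by
      rintro s rfl
      rw [Set.ncard_empty, Nat.cast_zero]
      positivity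
    refine h2 _ ?_
    rw [Set.eq_empty_iff_forall_notMem]
    rintro d ⟨x, -, -, i, -⟩
    exact hI.elim i
  have hnum : ∀ x ∈ Fr, ∀ i, numEig (ρ i x) = numEig (ρ i₀ x) := by
    intro x hx i
    unfold numEig
    rw [hcomp x hx i, hcomp x hx i₀]
    exact card_roots_eq _
  obtain ⟨Γ₀, hn, ho, h⟩ := dens (ρ i₀) (hρ i₀)
  obtain ⟨N, hN1, hN2, hN3⟩ := h ε hε
  refine ⟨N, hN1, hN2, le_trans ?_ hN3⟩
  haveI : Finite (P ⧸ N) := Subgroup.quotient_finite_of_isOpen N hN2
  refine Nat.cast_le.2 (Set.ncard_le_ncard ?_ (Set.toFinite _))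
  rintro c ⟨x, hxFr, hx, i, hns⟩
  refine ⟨x, hx, ?_⟩
  by_contra hcon
  push Not at hcon
  refine hns (criterion_open (ρ i) (hρ i) (hss i) (B := Γ₀) ?_ ?_)
  · exact Subgroup.isOpen_mono (le_sup_left.trans (Subgroup.le_topologicalClosure _)) ho
  · intro γ hγ
    by_contra hlt
    push Not at hlt
    obtain ⟨U, hU, hγU, hUle⟩ := numEig_open (ρ i) (hρ i) (γ * x)
    have hO : IsOpen (U ∩ {z | z * x⁻¹ ∈ Γ₀}) :=
      hU.inter (ho.preimage (continuous_id.mul continuous_const))
    obtain ⟨z, ⟨hzU, hzΓ⟩, hzFr⟩ := hFr.inter_open_nonempty _ hO ⟨γ * x, hγU, by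
      rw [Set.mem_setOf_eq, mul_inv_cancel_right]
      exact hγ⟩
    have h1 := hUle z hzU
    have h2 := hcon (z * x⁻¹) hzΓ
    rw [inv_mul_cancel_right] at h2
    have h3 := hnum z hzFr i
    have h4 := hnum x hxFr i
    omega

end Pool.Agent.Helper40.CS
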